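import Pool.Agent.TH669.KC.Defs

set_option autoImplicit false

/-!
# Graphs without large `k`-edge-connected subgraphs are sparse
-/

namespace Pool.Agent.TH669.KC

open Finset

variable {V : Type}

open Classical in
/-- ordered adjacent pairs -/
noncomputable def pe (G : SimpleGraph V) (U : Finset V) : ℕ :=
  ((U ×ˢ U).filter fun x => G.Adj x.1 x.2).card

theorem pe_split [DecidableEq V] (G : SimpleGraph V) (B U : Finset V) :
    pe G U ≤ pe G B + pe G (U \ B) + 2 * cut G B U := by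
  classical
  obtain ⟨F, hF⟩ : ∃ F : Finset (V × V), ∀ x, x ∈ F ↔ x.1 ∈ B ∧ x.2 ∈ U ∧ x.2 ∉ B ∧ G.Adj x.1 x.2 :=
    ⟨(B ×ˢ U).filter fun x => x.2 ∉ B ∧ G.Adj x.1 x.2, fun x => by
      rw [Finset.mem_filter, Finset.mem_product, and_assoc]⟩
  have hcut : F.card ≤ cut G B U := le_cut F le_rfl fun x hx => (hF x).1 hx
  obtain ⟨E1, hE1⟩ : ∃ F : Finset (V × V), F.card = pe G B ∧
      ∀ x, x ∈ F ↔ (x.1 ∈ B ∧ x.2 ∈ B) ∧ G.Adj x.1 x.2 :=
    ⟨_, rfl, fun x => by rw [Finset.mem_filter, Finset.mem_product]⟩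
  obtain ⟨E2, hE2⟩ : ∃ F : Finset (V × V), F.card = pe G (U \ B) ∧
      ∀ x, x ∈ F ↔ (x.1 ∈ U \ B ∧ x.2 ∈ U \ B) ∧ G.Adj x.1 x.2 :=
    ⟨_, rfl, fun x => by rw [Finset.mem_filter, Finset.mem_product]⟩
  obtain ⟨E, hE⟩ : ∃ F : Finset (V × V), F.card = pe G U ∧
      ∀ x, x ∈ F ↔ (x.1 ∈ U ∧ x.2 ∈ U) ∧ G.Adj x.1 x.2 :=
    ⟨_, rfl, fun x => by rw [Finset.mem_filter, Finset.mem_product]⟩
  have h1 : E ⊆ ((E1 ∪ E2) ∪ F) ∪ F.image Prod.swap := by
    rintro ⟨x, y⟩ hxy
    rw [hE.2] at hxy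
    obtain ⟨⟨hx, hy⟩, hadj⟩ := hxy
    simp only at hx hy hadj
    by_cases hxB : x ∈ B
    · by_cases hyB : y ∈ B
      · refine Finset.mem_union_left _ (Finset.mem_union_left _ (Finset.mem_union_left _ ?_))
        exact (hE1.2 _).2 ⟨⟨hxB, hyB⟩, hadj⟩
      · refine Finset.mem_union_left _ (Finset.mem_union_right _ ?_)
        exact (hF _).2 ⟨hxB, hy, hyB, hadj⟩
    · by_cases hyB : y ∈ B
      · refine Finset.mem_union_right _ (Finset.mem_image.2 ⟨(y, x), ?_, rfl⟩)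
        exact (hF _).2 ⟨hyB, hx, hxB, hadj.symm⟩
      · refine Finset.mem_union_left _ (Finset.mem_union_left _ (Finset.mem_union_right _ ?_))
        exact (hE2.2 _).2 ⟨⟨Finset.mem_sdiff.2 ⟨hx, hxB⟩,
          Finset.mem_sdiff.2 ⟨hy, hyB⟩⟩, hadj⟩
  have h2 := Finset.card_le_card h1
  have h3 := Finset.card_union_le ((E1 ∪ E2) ∪ F) (F.image Prod.swap)
  have h4 := Finset.card_union_le (E1 ∪ E2) F
  have h5 := Finset.card_union_le E1 E2
  have h6 : (F.image Prod.swap).card ≤ F.card := Finset.card_image_le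
  rw [← hE.1, ← hE1.1, ← hE2.1]
  omega

theorem sparse_bound (G : SimpleGraph V) (k s m : ℕ) (hm : 1 ≤ m) (hkm : k ≤ m + 1)
    (hsm : s ≤ 2 * m) (hno : ¬ HEC k s G) : ∀ (t : ℕ) (U : Finset V), U.card = t → U.Nonempty →
    pe G U + 2 * m ≤ 2 * m * U.card := by
  classical
  intro t
  induction t using Nat.strong_induction_on with
  | _ t ih =>
  intro U hUt hne
  by_contra hcon
  rw [not_le] at hcon
  have hEC : EC k G U := by
    intro B hB hBne hBU
    have hss : B ⊂ U := Finset.ssubset_iff_subset_ne.2 ⟨hB, hBU⟩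
    have hc1 := Finset.card_lt_card hss
    have hBpos := Finset.card_pos.2 hBne
    have hc2 : (U \ B).card = U.card - B.card := Finset.card_sdiff_of_subset hB
    have hne2 : (U \ B).Nonempty := Finset.card_pos.1 (by omega)
    have h1 := ih B.card (by omega) B rfl hBne
    have h2 := ih (U \ B).card (by omega) (U \ B) rfl hne2
    have h3 := pe_split G B U
    have h4 : 2 * m * U.card = 2 * m * B.card + 2 * m * (U \ B).card := by
      rw [← mul_add]
      congr 1
      omega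
    omega
  have hpos := Finset.card_pos.2 hne
  have hcard : pe G U ≤ U.card * (U.card - 1) := by
    unfold pe
    have h1 : (@Finset.filter (V × V) (fun x => G.Adj x.1 x.2)
        (fun _ => Classical.propDecidable _) (U ×ˢ U)) ⊆ U.offDiag := by
      intro x hx
      rw [Finset.mem_filter, Finset.mem_product] at hx
      rw [Finset.mem_offDiag]
      exact ⟨hx.1.1, hx.1.2, hx.2.ne⟩
    refine (Finset.card_le_card h1).trans (le_of_eq ?_)
    rw [Finset.offDiag_card, Nat.mul_sub_one]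
  have hlarge : 2 * m < U.card := by
    by_contra hle
    rw [not_lt] at hle
    obtain ⟨c, hc⟩ : ∃ c, U.card = c + 1 := ⟨U.card - 1, by omega⟩
    rw [hc] at hcard hcon hle
    have h1 : (c + 1) * (c + 1 - 1) ≤ 2 * m * c := by
      rw [Nat.add_sub_cancel]
      exact Nat.mul_le_mul_right c hle
    have h2 : 2 * m * (c + 1) = 2 * m * c + 2 * m := by ring
    omega
  exact hno ⟨U, by omega, hEC⟩

theorem edges_le {n : ℕ} (G : SimpleGraph (Fin n)) (k s m : ℕ) (hn : 1 ≤ n) (hm : 1 ≤ m)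
    (hkm : k ≤ m + 1) (hsm : s ≤ 2 * m) (hno : ¬ HEC k s G) : G.edgeSet.ncard ≤ 2 * m * n := by
  classical
  have hne : (Finset.univ : Finset (Fin n)).Nonempty := ⟨⟨0, hn⟩, Finset.mem_univ _⟩
  have h1 := sparse_bound G k s m hm hkm hsm hno n Finset.univ (by simp) hne
  rw [Finset.card_univ, Fintype.card_fin] at h1
  have h2 : G.edgeSet.ncard ≤ pe G Finset.univ := by
    obtain ⟨E, hE⟩ : ∃ F : Finset (Fin n × Fin n), F.card = pe G Finset.univ ∧
        ∀ x, x ∈ F ↔ (x.1 ∈ Finset.univ ∧ x.2 ∈ Finset.univ) ∧ G.Adj x.1 x.2 :=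
      ⟨_, rfl, fun x => by rw [Finset.mem_filter, Finset.mem_product]⟩
    rw [← hE.1]
    have h3 : G.edgeSet ⊆ ((E.image fun x => s(x.1, x.2)) : Finset (Sym2 (Fin n))) := by
      intro e he
      induction e with
      | _ x y =>
        rw [Finset.mem_coe, Finset.mem_image]
        exact ⟨(x, y), (hE.2 _).2 ⟨⟨Finset.mem_univ _, Finset.mem_univ _⟩, he⟩, rfl⟩
    refine (Set.ncard_le_ncard h3 (Finset.finite_toSet _)).trans ?_
    rw [Set.ncard_coe_finset]
    exact Finset.card_image_le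
  omega

end Pool.Agent.TH669.KC
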