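import Mathlib

set_option autoImplicit false
set_option linter.unusedSectionVars false

/-!
# Cores and edge-connected sets, by cuts
-/

namespace Pool.Agent.TH669.KC

open Finset

variable {V W : Type}

open Classical in
/-- the number of edges from `A` to `U \ A` -/
noncomputable def cut (G : SimpleGraph V) (A U : Finset V) : ℕ :=
  ((A ×ˢ U).filter fun x => x.2 ∉ A ∧ G.Adj x.1 x.2).card

open Classical in
/-- the degree in `U` -/
noncomputable def dg (G : SimpleGraph V) (U : Finset V) (v : V) : ℕ :=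
  (U.filter fun x => G.Adj v x).card

/-- `U` is connected -/
def Con (G : SimpleGraph V) (U : Finset V) : Prop :=
  ∀ A ⊆ U, A.Nonempty → A ≠ U → ∃ a ∈ A, ∃ c ∈ U, c ∉ A ∧ G.Adj a c

/-- connected of minimum degree at least `k` -/
def CR (k : ℕ) (G : SimpleGraph V) (U : Finset V) : Prop :=
  Con G U ∧ ∀ v ∈ U, k ≤ dg G U v

/-- `k`-edge-connected -/
def EC (k : ℕ) (G : SimpleGraph V) (U : Finset V) : Prop :=
  ∀ A ⊆ U, A.Nonempty → A ≠ U → k ≤ cut G A U

/-- a connected subgraph of minimum degree at least `k` on at least `s` vertices -/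
def HCR (k s : ℕ) (G : SimpleGraph V) : Prop := ∃ U : Finset V, s ≤ U.card ∧ CR k G U

/-- a `k`-edge-connected subgraph on at least `s` vertices -/
def HEC (k s : ℕ) (G : SimpleGraph V) : Prop := ∃ U : Finset V, s ≤ U.card ∧ EC k G U

theorem le_cut {G : SimpleGraph V} {A U : Finset V} {m : ℕ} (S : Finset (V × V)) (hm : m ≤ S.card)
    (h : ∀ x ∈ S, x.1 ∈ A ∧ x.2 ∈ U ∧ x.2 ∉ A ∧ G.Adj x.1 x.2) : m ≤ cut G A U := by
  classical
  refine hm.trans (Finset.card_le_card fun x hx => ?_)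
  obtain ⟨h1, h2, h3, h4⟩ := h x hx
  rw [Finset.mem_filter, Finset.mem_product]
  exact ⟨⟨h1, h2⟩, h3, h4⟩

theorem le_dg {G : SimpleGraph V} {U : Finset V} {v : V} {m : ℕ} (S : Finset V) (hm : m ≤ S.card)
    (h : ∀ x ∈ S, x ∈ U ∧ G.Adj v x) : m ≤ dg G U v := by
  classical
  refine hm.trans (Finset.card_le_card fun x hx => ?_)
  rw [Finset.mem_filter]
  exact h x hx

theorem dg_mono {G G' : SimpleGraph V} {U U' : Finset V} {v : V} (hU : U ⊆ U')
    (h : ∀ x ∈ U, G.Adj v x → G'.Adj v x) : dg G U v ≤ dg G' U' v := by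
  classical
  unfold dg
  refine Finset.card_le_card fun x hx => ?_
  rw [Finset.mem_filter] at hx ⊢
  exact ⟨hU hx.1, h x hx.1 hx.2⟩

theorem CR.mono {k : ℕ} {G G' : SimpleGraph V} {U : Finset V} (h : CR k G U)
    (hG : ∀ x ∈ U, ∀ y ∈ U, G.Adj x y → G'.Adj x y) : CR k G' U := by
  refine ⟨fun A hA hne hAU => ?_, fun v hv => ?_⟩
  · obtain ⟨a, ha, c, hc, hcA, hac⟩ := h.1 A hA hne hAU
    exact ⟨a, ha, c, hc, hcA, hG a (hA ha) c hc hac⟩
  · exact (h.2 v hv).trans (dg_mono subset_rfl fun x hx => hG v hv x hx)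

theorem HCR.mono {k s : ℕ} {G G' : SimpleGraph V} (hG : G ≤ G') (h : HCR k s G) : HCR k s G' := by
  obtain ⟨U, hs, hU⟩ := h
  exact ⟨U, hs, hU.mono fun x _ y _ hxy => hG hxy⟩

section union

variable [DecidableEq V]

theorem con_union {G : SimpleGraph V} {U U' : Finset V} (h : Con G U) (h' : Con G U')
    (hne : (U ∩ U').Nonempty) : Con G (U ∪ U') := by
  intro A hA hAne hAU
  obtain ⟨z, hz⟩ := hne
  rw [Finset.mem_inter] at hz
  have key : ∀ U U' : Finset V, Con G U → z ∈ U → z ∈ U' → A ∩ U ≠ ∅ → A ∩ U ≠ U →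
      ∃ a ∈ A, ∃ c ∈ U, c ∉ A ∧ G.Adj a c := by
    intro U U' h hz hz' h1 h2
    obtain ⟨a, ha, c, hc, hcA, hac⟩ := h (A ∩ U) Finset.inter_subset_right
      (Finset.nonempty_iff_ne_empty.2 h1) h2
    rw [Finset.mem_inter] at ha hcA
    exact ⟨a, ha.1, c, hc, fun h => hcA ⟨h, hc⟩, hac⟩
  by_cases h1 : A ∩ U ≠ ∅ ∧ A ∩ U ≠ U
  · obtain ⟨a, ha, c, hc, h2, h3⟩ := key U U' h hz.1 hz.2 h1.1 h1.2
    exact ⟨a, ha, c, Finset.mem_union_left _ hc, h2, h3⟩
  by_cases h2 : A ∩ U' ≠ ∅ ∧ A ∩ U' ≠ U'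
  · obtain ⟨a, ha, c, hc, h2, h3⟩ := key U' U h' hz.2 hz.1 h2.1 h2.2
    exact ⟨a, ha, c, Finset.mem_union_right _ hc, h2, h3⟩
  exfalso
  by_cases hzA : z ∈ A
  · have h3 : A ∩ U = U := by
      by_contra hcon
      refine h1 ⟨?_, hcon⟩
      rw [← Finset.nonempty_iff_ne_empty]
      exact ⟨z, Finset.mem_inter.2 ⟨hzA, hz.1⟩⟩
    have h4 : A ∩ U' = U' := by
      by_contra hcon
      refine h2 ⟨?_, hcon⟩
      rw [← Finset.nonempty_iff_ne_empty]
      exact ⟨z, Finset.mem_inter.2 ⟨hzA, hz.2⟩⟩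
    apply hAU
    refine Finset.Subset.antisymm hA (Finset.union_subset ?_ ?_)
    · rw [← h3]; exact Finset.inter_subset_left
    · rw [← h4]; exact Finset.inter_subset_left
  · have h3 : A ∩ U = ∅ := by
      by_contra hcon
      refine h1 ⟨hcon, fun h => hzA ?_⟩
      have : z ∈ A ∩ U := by rw [h]; exact hz.1
      exact (Finset.mem_inter.1 this).1
    have h4 : A ∩ U' = ∅ := by
      by_contra hcon
      refine h2 ⟨hcon, fun h => hzA ?_⟩
      have : z ∈ A ∩ U' := by rw [h]; exact hz.2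
      exact (Finset.mem_inter.1 this).1
    obtain ⟨a, ha⟩ := hAne
    rcases Finset.mem_union.1 (hA ha) with h5 | h5
    · have : a ∈ A ∩ U := Finset.mem_inter.2 ⟨ha, h5⟩
      rw [h3] at this
      simp at this
    · have : a ∈ A ∩ U' := Finset.mem_inter.2 ⟨ha, h5⟩
      rw [h4] at this
      simp at this

theorem cr_union {k : ℕ} {G : SimpleGraph V} {U U' : Finset V} (h : CR k G U) (h' : CR k G U')
    (hne : (U ∩ U').Nonempty) : CR k G (U ∪ U') := by
  refine ⟨con_union h.1 h'.1 hne, fun v hv => ?_⟩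
  rcases Finset.mem_union.1 hv with hv | hv
  · exact (h.2 v hv).trans (dg_mono Finset.subset_union_left fun _ _ h => h)
  · exact (h'.2 v hv).trans (dg_mono Finset.subset_union_right fun _ _ h => h)

end union

/-! ### transfer -/

section map

variable {G : SimpleGraph V} {G' : SimpleGraph W} (e : V ≃ W)
  (he : ∀ u v, G'.Adj (e u) (e v) ↔ G.Adj u v)

include he

theorem map_back {U : Finset V} {A : Finset W} (hA : A ⊆ U.map e.toEmbedding) :
    A.map e.symm.toEmbedding ⊆ U := by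
  intro x hx
  rw [Finset.mem_map] at hx
  obtain ⟨y, hy, rfl⟩ := hx
  have := hA hy
  rw [Finset.mem_map] at this
  obtain ⟨z, hz, rfl⟩ := this
  simpa using hz

theorem con_map {U : Finset V} (h : Con G U) : Con G' (U.map e.toEmbedding) := by
  intro A hA hne hAU
  obtain ⟨a, ha, c, hc, hcA, hac⟩ := h (A.map e.symm.toEmbedding) (map_back e he hA)
    (by simpa using hne) (by
      intro h1
      apply hAU
      rw [← h1]
      ext x
      simp)
  rw [Finset.mem_map] at ha hcA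
  obtain ⟨a', ha', rfl⟩ := ha
  refine ⟨a', ha', e c, Finset.mem_map_of_mem _ hc, fun h1 => hcA ⟨e c, h1, by simp⟩, ?_⟩
  have := (he (e.symm a') c).2 hac
  simpa using this

theorem dg_map (U : Finset V) (v : V) : dg G U v ≤ dg G' (U.map e.toEmbedding) (e v) := by
  classical
  refine le_dg ((U.filter fun x => G.Adj v x).map e.toEmbedding) (by rw [Finset.card_map]; rfl) ?_
  intro x hx
  rw [Finset.mem_map] at hx
  obtain ⟨y, hy, rfl⟩ := hx
  rw [Finset.mem_filter] at hy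
  exact ⟨Finset.mem_map_of_mem _ hy.1, (he v y).2 hy.2⟩

theorem cr_map {k : ℕ} {U : Finset V} (h : CR k G U) : CR k G' (U.map e.toEmbedding) := by
  refine ⟨con_map e he h.1, fun v hv => ?_⟩
  rw [Finset.mem_map] at hv
  obtain ⟨u, hu, rfl⟩ := hv
  exact (h.2 u hu).trans (dg_map e he U u)

theorem ec_map {k : ℕ} {U : Finset V} (h : EC k G U) : EC k G' (U.map e.toEmbedding) := by
  classical
  intro A hA hne hAU
  have h1 := h (A.map e.symm.toEmbedding) (map_back e he hA)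
    (by simpa using hne) (by
      intro h1
      apply hAU
      rw [← h1]
      ext x
      simp)
  refine le_cut (((A.map e.symm.toEmbedding ×ˢ U).filter fun x => x.2 ∉ A.map e.symm.toEmbedding ∧
    G.Adj x.1 x.2).map ⟨fun x => (e x.1, e x.2), fun x y h => by
      simp only [Prod.mk.injEq, EmbeddingLike.apply_eq_iff_eq] at h
      exact Prod.ext h.1 h.2⟩) (by rw [Finset.card_map]; exact h1) ?_
  intro x hx
  rw [Finset.mem_map] at hx
  obtain ⟨⟨u, v⟩, huv, rfl⟩ := hx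
  rw [Finset.mem_filter, Finset.mem_product] at huv
  obtain ⟨⟨h2, h3⟩, h4, h5⟩ := huv
  simp only at h2 h3 h4 h5
  refine ⟨?_, Finset.mem_map_of_mem _ h3, ?_, (he u v).2 h5⟩
  · rw [Finset.mem_map] at h2
    obtain ⟨y, hy, rfl⟩ := h2
    show e (e.symm y) ∈ A
    rw [Equiv.apply_symm_apply]
    exact hy
  · intro h6
    apply h4
    rw [Finset.mem_map]
    exact ⟨e v, h6, by simp⟩

theorem hcr_map {k s : ℕ} (h : HCR k s G) : HCR k s G' := by
  obtain ⟨U, h1, h2⟩ := h
  exact ⟨U.map e.toEmbedding, by rwa [Finset.card_map], cr_map e he h2⟩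

theorem hec_map {k s : ℕ} (h : HEC k s G) : HEC k s G' := by
  obtain ⟨U, h1, h2⟩ := h
  exact ⟨U.map e.toEmbedding, by rwa [Finset.card_map], ec_map e he h2⟩

end map

/-! ### Mathlib's notions -/

theorem ec_isEdgeConnected {k : ℕ} {G : SimpleGraph V} {U : Finset V} (h : EC k G U) :
    (G.induce (U : Set V)).IsEdgeConnected k := by
  classical
  intro u v S hS
  by_contra hcon
  set H := (G.induce (U : Set V)).deleteEdges S with hH
  set A : Finset V := U.filter fun x => ∃ hx : x ∈ (U : Set V), H.Reachable u ⟨x, hx⟩ with hA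
  have hu : u.1 ∈ A := by
    rw [hA, Finset.mem_filter]
    exact ⟨u.2, u.2, SimpleGraph.Reachable.refl _⟩
  have hv : v.1 ∉ A := by
    rw [hA, Finset.mem_filter]
    rintro ⟨_, _, h1⟩
    exact hcon h1
  have hAU : A ≠ U := by
    intro h1
    apply hv
    rw [h1]
    exact v.2
  have h1 := h A (Finset.filter_subset _ _) ⟨u.1, hu⟩ hAU
  have hfin : S.Finite := by
    rw [← Set.encard_lt_top_iff]
    exact lt_of_lt_of_le hS le_top
  have h2 : ∀ x ∈ (A ×ˢ U).filter (fun x => x.2 ∉ A ∧ G.Adj x.1 x.2),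
      ∃ (h1 : x.1 ∈ (U : Set V)) (h2 : x.2 ∈ (U : Set V)),
        s((⟨x.1, h1⟩ : (U : Set V)), ⟨x.2, h2⟩) ∈ S := by
    rintro ⟨x, y⟩ hxy
    rw [Finset.mem_filter, Finset.mem_product] at hxy
    obtain ⟨⟨hx, hy⟩, hyA, hadj⟩ := hxy
    simp only at hx hy hyA hadj
    have hxU : x ∈ (U : Set V) := (Finset.filter_subset _ _) hx
    refine ⟨hxU, hy, ?_⟩
    by_contra hno
    apply hyA
    rw [hA, Finset.mem_filter] at hx ⊢
    obtain ⟨_, hx', hr⟩ := hx
    refine ⟨hy, hy, hr.trans (SimpleGraph.Adj.reachable ?_)⟩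
    rw [hH, SimpleGraph.deleteEdges_adj]
    exact ⟨hadj, hno⟩
  have h3 : ((A ×ˢ U).filter (fun x => x.2 ∉ A ∧ G.Adj x.1 x.2)).card ≤ hfin.toFinset.card := by
    refine Finset.card_le_card_of_injOn (fun x => if hx : x.1 ∈ (U : Set V) ∧ x.2 ∈ (U : Set V) then
      s((⟨x.1, hx.1⟩ : (U : Set V)), ⟨x.2, hx.2⟩) else s(u, v)) ?_ ?_
    · intro x hx
      obtain ⟨h4, h5, h6⟩ := h2 x hx
      simp only
      rw [dif_pos ⟨h4, h5⟩]
      exact hfin.mem_toFinset.2 h6
    · intro x hx y hy hxy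
      obtain ⟨h4, h5, _⟩ := h2 x hx
      obtain ⟨h4', h5', _⟩ := h2 y hy
      simp only at hxy
      rw [dif_pos ⟨h4, h5⟩, dif_pos ⟨h4', h5'⟩] at hxy
      rw [Finset.mem_coe, Finset.mem_filter, Finset.mem_product] at hx hy
      rw [Sym2.eq_iff] at hxy
      rcases hxy with ⟨h6, h7⟩ | ⟨h6, h7⟩
      · exact Prod.ext (congrArg Subtype.val h6) (congrArg Subtype.val h7)
      · exfalso
        have h8 : x.1 = y.2 := congrArg Subtype.val h6
        exact hy.2.1 (by rw [← h8]; exact hx.1.1)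
  have h4 : (k : ℕ∞) ≤ S.encard := by
    rw [← hfin.coe_toFinset, Set.encard_coe_eq_coe_finsetCard]
    exact_mod_cast h1.trans h3
  exact absurd hS (not_lt.2 h4)

theorem con_of_connected {G : SimpleGraph V} {U : Finset V}
    (h : (G.induce (U : Set V)).Preconnected) : Con G U := by
  classical
  intro A hA hne hAU
  by_contra hcon
  push Not at hcon
  obtain ⟨a, ha⟩ := hne
  have hstep : ∀ x y : (U : Set V), (G.induce (U : Set V)).Reachable x y → x.1 ∈ A → y.1 ∈ A := by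
    intro x y hxy
    obtain ⟨w⟩ := hxy
    induction w with
    | nil => exact id
    | cons h _ ih =>
      intro hx
      apply ih
      by_contra hno
      exact hcon _ hx _ (Finset.mem_coe.1 (Subtype.property _)) hno h
  apply hAU
  refine Finset.Subset.antisymm hA fun y hy => ?_
  exact hstep ⟨a, hA ha⟩ ⟨y, hy⟩ (h _ _) ha

end Pool.Agent.TH669.KC
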