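import Pool.Agent.TH669.KC.Num

set_option autoImplicit false
set_option linter.unusedSectionVars false

/-!
# Choice of the parameters
-/

namespace Pool.Agent.TH669.KC

open Finset
open Pool.Agent.H119R2.Kp (GP PV)
open Pool.Agent.TH669.KP (sgn bit bit_pos bit_neg bit_congr sum_sgn)

theorem E_eval {m M : ℕ} (r q s r0 : ℕ) (hm : m = M + 1) (h1 : q * r + 1 + r0 < s)
    (h2 : s ≤ 1 + q * (r + 1) + r0) :
    ∑ κ : Fin m → Bool, sgn κ * bit (s ≤ 1 + (q * cnt κ + r0)) = (-1) ^ (r + 1) * (M.choose r : ℤ) := by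
  rw [← e_eval (X := Fin m) M r (by rw [Fintype.card_fin, hm])]
  refine Finset.sum_congr rfl fun κ _ => congrArg _ (bit_congr ⟨fun h => ?_, fun h => ?_⟩)
  · by_contra hno
    have h3 : cnt κ ≤ r := by omega
    have h4 := Nat.mul_le_mul_left q h3
    omega
  · have h4 := Nat.mul_le_mul_left q h
    omega

theorem E_eval' {m M : ℕ} (r q s : ℕ) (hm : m = M + 1) (h1 : q * r + 1 < s)
    (h2 : s ≤ 1 + q * (r + 1)) :
    ∑ κ : Fin m → Bool, sgn κ * bit (s ≤ 1 + q * cnt κ) = (-1) ^ (r + 1) * (M.choose r : ℤ) := by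
  have := E_eval (m := m) r q s 0 hm (by omega) (by omega)
  simpa using this

theorem E_zero {m : ℕ} (q s r0 : ℕ) (hm : 1 ≤ m) (h : s ≤ 1 + r0) :
    ∑ κ : Fin m → Bool, sgn κ * bit (s ≤ 1 + (q * cnt κ + r0)) = 0 := by
  have hne : Nonempty (Fin m) := ⟨⟨0, by omega⟩⟩
  rw [← sum_sgn (X := Fin m)]
  refine Finset.sum_congr rfl fun κ _ => ?_
  rw [bit_pos (by omega), mul_one]

section

variable {n q k s : ℕ} {Q : SimpleGraph (Fin n) → Prop} (hQ : GP n q Q)
    (hlow : ∀ H, HEC k s H → Q H) (hup : ∀ H, Q H → HCR k s H) (hq : q < n.choose 2) (hk : 2 ≤ k)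
    (hs2 : 2 ≤ s)

include hQ hlow hup hq hk hs2

/-- one cyclic block -/
theorem caseD (a m b M r0 r1 : ℕ) (hn : n = 1 + (m * 2 ^ a + b)) (hodd : b % 2 = 1) (hm : m = M + 1)
    (hk1 : k ≤ 2 ^ a) (hk2 : k ≤ b) (hs1 : 2 ^ a < s) (hs2' : b < s)
    (e1 : 2 ^ a * r0 + 1 < s) (e2 : s ≤ 1 + 2 ^ a * (r0 + 1))
    (e3 : 2 ^ a * r1 + 1 + b < s) (e4 : s ≤ 1 + 2 ^ a * (r1 + 1) + b) :
    (-1 : ℤ) ^ (r0 + 1) * (M.choose r0 : ℤ) = (-1) ^ (r1 + 1) * (M.choose r1 : ℤ) := by
  have h := block_rel (P := Fin m) (R := Unit) a (fun _ => b) hQ hlow hup ?_ hq hk hs2 ?_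
    (fun _ => hodd) ?_ ?_
  · rw [NN_one, E_eval' r0 (2 ^ a) s hm e1 e2, E_eval r1 (2 ^ a) s b hm e3 e4] at h
    have h1 := (mul_eq_zero.1 h).resolve_left (pow_ne_zero _ (by norm_num))
    linarith
  · rw [Fintype.sum_sum_type, hn]
    simp [bs]
  · intro y
    refine ⟨(y ()).val, fun _ => ?_⟩
    have : NeZero b := ⟨by omega⟩
    exact ZMod.natCast_zmod_val _
  · rintro (i | j)
    · exact hk1
    · exact hk2
  · rintro (i | j)
    · exact hs1
    · exact hs2'

theorem crt2 (b : Bool → ℕ) (hcop : Nat.Coprime (b true) (b false)) (hb : ∀ j, b j ≠ 0)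
    (y : ∀ j, ZMod (b j)) : ∃ m : ℕ, ∀ j, (m : ZMod (b j)) = y j := by
  have : ∀ j, NeZero (b j) := fun j => ⟨hb j⟩
  obtain ⟨t, ht1, ht2⟩ := Nat.chineseRemainder hcop (y true).val (y false).val
  refine ⟨t, fun j => ?_⟩
  cases j
  · have := (ZMod.natCast_eq_natCast_iff _ _ (b false)).2 ht2
    rw [this, ZMod.natCast_zmod_val]
  · have := (ZMod.natCast_eq_natCast_iff _ _ (b true)).2 ht1
    rw [this, ZMod.natCast_zmod_val]

/-- two cyclic blocks -/
theorem caseE (a m b b' M r0 : ℕ) (hn : n = 1 + (m * 2 ^ a + (b + b'))) (hodd : b % 2 = 1)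
    (hodd' : b' % 2 = 1) (hcop : Nat.Coprime b b') (hm : m = M + 1)
    (hk1 : k ≤ 2 ^ a) (hk2 : k ≤ b) (hk3 : k ≤ b') (hs1 : 2 ^ a < s) (hs2' : b + 1 < s)
    (hs3 : b' + 1 < s)
    (e1 : 2 ^ a * r0 + 1 < s) (e2 : s ≤ 1 + 2 ^ a * (r0 + 1))
    (e3 : s ≤ 1 + 2 ^ a + b) (e4 : s ≤ 1 + 2 ^ a + b') (e5 : s ≤ 1 + (b + b')) :
    (-1 : ℤ) ^ (r0 + 1) * (M.choose r0 : ℤ) + 2 = 0 := by
  have h := block_rel (P := Fin m) (R := Bool) a (fun c => if c = true then b else b') hQ hlow hup
    ?_ hq hk hs2 ?_ ?_ ?_ ?_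
  · rw [NN_two, E_eval' r0 (2 ^ a) s hm e1 e2] at h
    simp only [if_true, Bool.false_eq_true, if_false] at h
    rw [E_eval 0 (2 ^ a) s b hm (by omega) (by omega), E_eval 0 (2 ^ a) s b' hm (by omega) (by omega),
      E_zero (2 ^ a) s (b + b') (by omega) e5] at h
    have h1 := (mul_eq_zero.1 h).resolve_left (pow_ne_zero _ (by norm_num))
    simp only [zero_add, pow_one, Nat.choose_zero_right, Nat.cast_one, mul_one] at h1
    linarith
  · rw [Fintype.sum_sum_type, hn]
    simp [bs]
  · refine crt2 hQ hlow hup hq hk hs2 _ hcop ?_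
    intro j
    cases j
    · show b' ≠ 0
      omega
    · show b ≠ 0
      omega
  · intro j
    cases j
    · exact hodd'
    · exact hodd
  · rintro (i | j)
    · exact hk1
    · cases j
      · exact hk3
      · exact hk2
  · rintro (i | j)
    · exact hs1
    · cases j
      · show b' < s
        omega
      · show b < s
        omega

/-- two cyclic blocks and nothing else -/
theorem caseE0 (b b' : ℕ) (hn : n = 1 + (b + b')) (hodd : b % 2 = 1)
    (hodd' : b' % 2 = 1) (hcop : Nat.Coprime b b') (hk2 : k ≤ b) (hk3 : k ≤ b') (hs2' : b + 1 < s)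
    (hs3 : b' + 1 < s) (e5 : s ≤ 1 + (b + b')) : False := by
  have h := block_rel (P := Fin 0) (R := Bool) 1 (fun c => if c = true then b else b') hQ hlow hup
    ?_ hq hk hs2 ?_ ?_ ?_ ?_
  · rw [NN_two] at h
    have h1 := (mul_eq_zero.1 h).resolve_left (pow_ne_zero _ (by norm_num))
    have h2 : ∀ κ : Fin 0 → Bool, cnt κ = 0 := by
      intro κ
      unfold cnt
      simp
    have h3 : ∀ κ : Fin 0 → Bool, sgn κ = 1 := by
      intro κ
      unfold sgn
      simp
    simp only [h2, h3, mul_zero, zero_add, if_true, Bool.false_eq_true, if_false, add_zero,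
      one_mul, Finset.sum_const, Finset.card_univ] at h1
    rw [bit_neg (by omega), bit_neg (by omega), bit_neg (by omega), bit_pos (by omega)] at h1
    simp at h1
  · rw [Fintype.sum_sum_type, hn]
    simp [bs]
  · refine crt2 hQ hlow hup hq hk hs2 _ hcop ?_
    intro j
    cases j
    · show b' ≠ 0
      omega
    · show b ≠ 0
      omega
  · intro j
    cases j
    · exact hodd'
    · exact hodd
  · rintro (i | j)
    · exact i.elim0
    · cases j
      · exact hk3
      · exact hk2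
  · rintro (i | j)
    · exact i.elim0
    · cases j
      · show b' < s
        omega
      · show b < s
        omega

end

/-- balanced splitting of an even number into two odd coprime numbers -/
theorem split_even (T : ℕ) (hT : T % 2 = 0) (h8 : 8 ≤ T) : ∃ b b', T = b + b' ∧ b % 2 = 1 ∧
    b' % 2 = 1 ∧ Nat.Coprime b b' ∧ T ≤ 2 * b + 4 ∧ T ≤ 2 * b' + 4 ∧ 2 * b ≤ T + 4 ∧
    2 * b' ≤ T + 4 := by
  have h2 : ∀ b, b % 2 = 1 → Nat.Coprime b 2 := fun b hb =>
    ((Nat.Prime.coprime_iff_not_dvd Nat.prime_two).2 (by omega)).symm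
  have h4 : ∀ b, b % 2 = 1 → Nat.Coprime b 4 := fun b hb => by
    have := (h2 b hb).pow_right 2
    simpa using this
  rcases Nat.even_or_odd' (T / 2) with ⟨c, hc | hc⟩
  · refine ⟨2 * c - 1, 2 * c + 1, by omega, by omega, by omega, ?_, by omega, by omega, by omega,
      by omega⟩
    have h := h2 (2 * c - 1) (by omega)
    have h3 : 2 * c + 1 = 2 * c - 1 + 2 := by omega
    rw [h3, Nat.coprime_self_add_right]
    exact h
  · refine ⟨2 * c + 1 - 2, 2 * c + 1 + 2, by omega, by omega, by omega, ?_, by omega, by omega,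
      by omega, by omega⟩
    have h := h4 (2 * c + 1 - 2) (by omega)
    have h3 : 2 * c + 1 + 2 = 2 * c + 1 - 2 + 4 := by omega
    rw [h3, Nat.coprime_self_add_right]
    exact h

theorem choose_two_ne (M : ℕ) : (M.choose 2 : ℤ) ≠ 2 := by
  intro h
  have h1 : M.choose 2 = 2 := by exact_mod_cast h
  rcases Nat.lt_or_ge M 3 with h2 | h2
  · interval_cases M <;> simp at h1
  · have := Nat.choose_le_choose 2 h2
    rw [h1] at this
    revert this
    decide

theorem choose_two_one (M : ℕ) (h : (M.choose 2 : ℤ) = 1) : M = 2 := by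
  have h1 : M.choose 2 = 1 := by exact_mod_cast h
  rcases Nat.lt_or_ge M 3 with h2 | h2
  · interval_cases M
    · simp at h1
    · simp at h1
    · rfl
  · exfalso
    have := Nat.choose_le_choose 2 h2
    rw [h1] at this
    revert this
    decide

/-- the theorem for `s ≥ 5 k + 41` -/
theorem direct {n q k s : ℕ} {Q : SimpleGraph (Fin n) → Prop} (hQ : GP n q Q)
    (hlow : ∀ H, HEC k s H → Q H) (hup : ∀ H, Q H → HCR k s H) (hq : q < n.choose 2) (hk : 2 ≤ k)
    (hs : 5 * k + 41 ≤ s) (hsn : s ≤ n) : False := by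
  have hs2 : 2 ≤ s := by omega
  -- the power of two
  obtain ⟨a1, ha1, ha2⟩ : ∃ a1, 2 ^ a1 + 2 ≤ s ∧ s ≤ 2 * 2 ^ a1 + 1 := by
    refine ⟨Nat.log 2 (s - 2), ?_, ?_⟩
    · have := Nat.pow_log_le_self 2 (show s - 2 ≠ 0 by omega)
      omega
    · have := Nat.lt_pow_succ_log_self (b := 2) (by norm_num) (s - 2)
      rw [pow_succ] at this
      omega
  obtain ⟨a2, rfl⟩ : ∃ a2, a1 = a2 + 2 := by
    refine ⟨a1 - 2, ?_⟩
    rcases Nat.lt_or_ge a1 2 with h | h
    · have : 2 ^ a1 ≤ 2 ^ 2 := Nat.pow_le_pow_right (by norm_num) h.le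
      omega
    · omega
  set Z := 2 ^ a2 with hZ
  have hZ1 : 2 ^ (a2 + 2) = 4 * Z := by rw [pow_add, hZ]; ring
  have hZ2 : 2 ^ (a2 + 1) = 2 * Z := by rw [pow_add, hZ]; ring
  rw [hZ1] at ha1 ha2
  have hpos : 0 < Z := by positivity
  rcases Nat.mod_two_eq_zero_or_one n with hn | hn
  · -- n - 1 is odd: one cyclic block
    by_cases hgood : 4 * Z + k + 9 ≤ s
    · -- blocks of size 4 Z
      set r := (n + 4 * Z - s) % (4 * Z) with hr
      set m := (n + 4 * Z - s) / (4 * Z) with hm
      have h1 : r + 4 * Z * m = n + 4 * Z - s := Nat.mod_add_div _ _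
      have h2 : r < 4 * Z := Nat.mod_lt _ (by omega)
      have hm1 : 1 ≤ m := by
        rw [hm, Nat.le_div_iff_mul_le (by omega)]
        omega
      obtain ⟨M, hM⟩ : ∃ M, m = M + 1 := ⟨m - 1, by omega⟩
      have h3 : m * (4 * Z) = 4 * Z * m := mul_comm _ _
      have h4 : 4 * Z * m = 2 * (2 * Z * m) := by ring
      have := caseD hQ hlow hup hq hk hs2 (a2 + 2) m (s - 1 - 4 * Z + r) M 1 0
        (by rw [hZ1]; omega) (by omega) hM (by rw [hZ1]; omega) (by omega) (by rw [hZ1]; omega)
        (by omega) (by rw [hZ1]; omega) (by rw [hZ1]; omega) (by rw [hZ1]; omega)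
        (by rw [hZ1]; omega)
      simp only [Nat.choose_one_right, Nat.choose_zero_right] at this
      norm_num at this
      omega
    · -- blocks of size 2 Z
      set r := (n + 2 * Z - s) % (2 * Z) with hr
      set m := (n + 2 * Z - s) / (2 * Z) with hm
      have h1 : r + 2 * Z * m = n + 2 * Z - s := Nat.mod_add_div _ _
      have h2 : r < 2 * Z := Nat.mod_lt _ (by omega)
      have hm1 : 1 ≤ m := by
        rw [hm, Nat.le_div_iff_mul_le (by omega)]
        omega
      obtain ⟨M, hM⟩ : ∃ M, m = M + 1 := ⟨m - 1, by omega⟩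
      have h3 : m * (2 * Z) = 2 * Z * m := mul_comm _ _
      have h4 : 2 * Z * m = 2 * (Z * m) := by ring
      have := caseD hQ hlow hup hq hk hs2 (a2 + 1) m (s - 1 - 2 * Z + r) M 2 0
        (by rw [hZ2]; omega) (by omega) hM (by rw [hZ2]; omega) (by omega) (by rw [hZ2]; omega)
        (by omega) (by rw [hZ2]; omega) (by rw [hZ2]; omega) (by rw [hZ2]; omega)
        (by rw [hZ2]; omega)
      simp only [Nat.choose_zero_right] at this
      norm_num at this
      have hM2 : M = 2 := choose_two_one M (by linarith)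
      subst hM2
      -- six blocks of size Z
      have hm3 : m = 3 := hM
      rw [hm3] at h1 h3 h4
      by_cases hb : s ≤ 1 + Z + (s - 1 - 2 * Z + r)
      · have := caseD hQ hlow hup hq hk hs2 a2 6 (s - 1 - 2 * Z + r) 5 4 0
          (by rw [← hZ]; omega) (by omega) rfl (by rw [← hZ]; omega) (by omega)
          (by rw [← hZ]; omega)
          (by omega) (by rw [← hZ]; omega) (by rw [← hZ]; omega) (by rw [← hZ]; omega)
          (by rw [← hZ]; omega)
        revert this
        decide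
      · have := caseD hQ hlow hup hq hk hs2 a2 6 (s - 1 - 2 * Z + r) 5 4 1
          (by rw [← hZ]; omega) (by omega) rfl (by rw [← hZ]; omega) (by omega)
          (by rw [← hZ]; omega)
          (by omega) (by rw [← hZ]; omega) (by rw [← hZ]; omega) (by rw [← hZ]; omega)
          (by rw [← hZ]; omega)
        revert this
        decide
  · -- n - 1 is even: two cyclic blocks
    by_cases hgood : 4 * Z + k + 9 ≤ s
    · by_cases hsmall : n < s + 4 + 4 * Z
      · obtain ⟨b, b', hbb, hb1, hb2, hcop, c1, c2, c3, c4⟩ := split_even (n - 1) (by omega) (by omega)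
        exact caseE0 hQ hlow hup hq hk hs2 b b' (by omega) hb1 hb2 hcop (by omega) (by omega)
          (by omega) (by omega) (by omega)
      · set r := (n - s - 4) % (4 * Z) with hr
        set m := (n - s - 4) / (4 * Z) with hm
        have h1 : r + 4 * Z * m = n - s - 4 := Nat.mod_add_div _ _
        have h2 : r < 4 * Z := Nat.mod_lt _ (by omega)
        have hm1 : 1 ≤ m := by
          rw [hm, Nat.le_div_iff_mul_le (by omega)]
          omega
        obtain ⟨M, hM⟩ : ∃ M, m = M + 1 := ⟨m - 1, by omega⟩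
        have h3 : m * (4 * Z) = 4 * Z * m := mul_comm _ _
        have h4 : 4 * Z * m = 2 * (2 * Z * m) := by ring
        obtain ⟨b, b', hbb, hb1, hb2, hcop, c1, c2, c3, c4⟩ :=
          split_even (s - 1 + 4 + r) (by omega) (by omega)
        have := caseE hQ hlow hup hq hk hs2 (a2 + 2) m b b' M 1
          (by rw [hZ1]; omega) hb1 hb2 hcop hM (by rw [hZ1]; omega) (by omega) (by omega)
          (by rw [hZ1]; omega) (by omega) (by omega) (by rw [hZ1]; omega) (by rw [hZ1]; omega)
          (by rw [hZ1]; omega) (by rw [hZ1]; omega) (by omega)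
        simp only [Nat.choose_one_right] at this
        norm_num at this
        omega
    · by_cases hsmall : n < s + (k + 12) + 2 * Z
      · obtain ⟨b, b', hbb, hb1, hb2, hcop, c1, c2, c3, c4⟩ := split_even (n - 1) (by omega) (by omega)
        exact caseE0 hQ hlow hup hq hk hs2 b b' (by omega) hb1 hb2 hcop (by omega) (by omega)
          (by omega) (by omega) (by omega)
      · set r := (n - s - (k + 12)) % (2 * Z) with hr
        set m := (n - s - (k + 12)) / (2 * Z) with hm
        have h1 : r + 2 * Z * m = n - s - (k + 12) := Nat.mod_add_div _ _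
        have h2 : r < 2 * Z := Nat.mod_lt _ (by omega)
        have hm1 : 1 ≤ m := by
          rw [hm, Nat.le_div_iff_mul_le (by omega)]
          omega
        obtain ⟨M, hM⟩ : ∃ M, m = M + 1 := ⟨m - 1, by omega⟩
        have h3 : m * (2 * Z) = 2 * Z * m := mul_comm _ _
        have h4 : 2 * Z * m = 2 * (Z * m) := by ring
        obtain ⟨b, b', hbb, hb1, hb2, hcop, c1, c2, c3, c4⟩ :=
          split_even (s - 1 + (k + 12) + r) (by omega) (by omega)
        have := caseE hQ hlow hup hq hk hs2 (a2 + 1) m b b' M 2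
          (by rw [hZ2]; omega) hb1 hb2 hcop hM (by rw [hZ2]; omega) (by omega) (by omega)
          (by rw [hZ2]; omega) (by omega) (by omega) (by rw [hZ2]; omega) (by rw [hZ2]; omega)
          (by rw [hZ2]; omega) (by rw [hZ2]; omega) (by omega)
        norm_num at this
        exact choose_two_ne M (by linarith)

end Pool.Agent.TH669.KC
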