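import Pool.Agent.TH669.KC.Key

set_option autoImplicit false
set_option linter.unusedSectionVars false

/-!
# Evaluation of the relation
-/

namespace Pool.Agent.TH669.KC

open Finset
open Pool.Agent.H119R2.Kp (GP PV)
open Pool.Agent.TH669.KP (sgn bit bit_pos bit_neg bit_congr bit_not GR GR_adj toggle_zero sgn_sum
  sum_split sum_whole)

theorem toggle_iff {X : Type} [DecidableEq X] (h : (X → Bool) → ℤ) (x : X)
    (hx : ∀ χ, h (Function.update χ x true) = h (Function.update χ x false)) :
    ∀ χ, h (Function.update χ x (!χ x)) = h χ := by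
  intro χ
  have h1 : Function.update χ x (χ x) = χ := Function.update_eq_self x χ
  cases hb : χ x with
  | true =>
    rw [hb] at h1
    conv_rhs => rw [← h1]
    exact (hx χ).symm
  | false =>
    rw [hb] at h1
    conv_rhs => rw [← h1]
    exact hx χ

/-- gluing a connected set to a set which is connected in a larger graph -/
theorem con_glue {V : Type} [DecidableEq V] {G G' : SimpleGraph V} {U K : Finset V} (h : Con G U)
    (h' : Con G' K) (hne : (U ∩ K).Nonempty)
    (hGG : ∀ x y, G.Adj x y → (x ∉ K ∨ y ∉ K) → G'.Adj x y) : Con G' (U ∪ K) := by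
  intro B hB hBne hBU
  obtain ⟨z, hz⟩ := hne
  rw [Finset.mem_inter] at hz
  by_cases h1 : B ∩ K ≠ ∅ ∧ B ∩ K ≠ K
  · obtain ⟨a, ha, c, hc, hcB, hac⟩ := h' (B ∩ K) Finset.inter_subset_right
      (Finset.nonempty_iff_ne_empty.2 h1.1) h1.2
    rw [Finset.mem_inter] at ha hcB
    exact ⟨a, ha.1, c, Finset.mem_union_right _ hc, fun h => hcB ⟨h, hc⟩, hac⟩
  by_cases hzB : z ∈ B
  · have h3 : B ∩ K = K := by
      by_contra hcon
      refine h1 ⟨?_, hcon⟩
      rw [← Finset.nonempty_iff_ne_empty]
      exact ⟨z, Finset.mem_inter.2 ⟨hzB, hz.2⟩⟩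
    have hKB : K ⊆ B := by
      rw [← h3]
      exact Finset.inter_subset_left
    obtain ⟨a, ha, c, hc, hcB, hac⟩ := h (B ∩ U) Finset.inter_subset_right
      ⟨z, Finset.mem_inter.2 ⟨hzB, hz.1⟩⟩ (fun h4 => hBU (by
        refine Finset.Subset.antisymm hB (Finset.union_subset ?_ hKB)
        rw [← h4]
        exact Finset.inter_subset_left))
    rw [Finset.mem_inter] at ha hcB
    have hcB' : c ∉ B := fun h => hcB ⟨h, hc⟩
    exact ⟨a, ha.1, c, Finset.mem_union_left _ hc, hcB',
      hGG a c hac (Or.inr fun h => hcB' (hKB h))⟩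
  · have h3 : B ∩ K = ∅ := by
      by_contra hcon
      refine h1 ⟨hcon, fun h => hzB ?_⟩
      have : z ∈ B ∩ K := by rw [h]; exact hz.2
      exact (Finset.mem_inter.1 this).1
    have hBK : ∀ x ∈ B, x ∉ K := by
      intro x hx hxK
      have : x ∈ B ∩ K := Finset.mem_inter.2 ⟨hx, hxK⟩
      rw [h3] at this
      simp at this
    have hBsub : B ⊆ U := by
      intro x hx
      rcases Finset.mem_union.1 (hB hx) with h4 | h4
      · exact h4
      · exact absurd h4 (hBK x hx)
    obtain ⟨a, ha, c, hc, hcB, hac⟩ := h B hBsub hBne (fun h4 => hzB (by rw [h4]; exact hz.1))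
    exact ⟨a, ha, c, Finset.mem_union_left _ hc, hcB, hGG a c hac (Or.inl (hBK a ha))⟩

section

variable {I : Type} {A : I → Type} [∀ i, AddCommGroup (A i)] [∀ i, DecidableEq (A i)]
  [DecidableEq I] [Fintype I] [∀ i, Fintype (A i)]

variable (κ : Ky I → Bool) (η : Et A → Bool)

theorem G_mono (η' : Et A → Bool) (h : ∀ e, η e = true → η' e = true) : G κ η ≤ G κ η' := by
  intro u v huv
  rw [G, GR_adj] at huv ⊢
  obtain ⟨j, hj, hχ⟩ := huv
  refine ⟨j, hj, ?_⟩
  rcases j with j | j
  · exact hχ
  · exact h j hχ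

/-- edges which disappear when one inner orbit is removed are in this block -/
theorem lost (e : Et A) (u v : Vx A) (h : (G κ (Function.update η e true)).Adj u v)
    (h' : ¬ (G κ (Function.update η e false)).Adj u v) : u ∈ blk A e.1 ∧ v ∈ blk A e.1 := by
  have h1 : orb u v = some (.inr e) := by
    rw [G, GR_adj] at h h'
    obtain ⟨j, hj, hχ⟩ := h
    rcases j with j | j
    · exact absurd ⟨.inl j, hj, hχ⟩ h'
    · by_cases hje : j = e
      · rw [hj, hje]
      · exfalso
        refine h' ⟨.inr j, hj, ?_⟩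
        simp only [Sum.elim_inr] at hχ ⊢
        rw [Function.update_of_ne hje] at hχ ⊢
        exact hχ
  rcases u with _ | ⟨i, x⟩
  · rcases v with _ | ⟨k, y⟩
    · rw [orb_nn] at h1
      cases h1
    · rw [orb_ns] at h1
      simp at h1
  · rcases v with _ | ⟨k, y⟩
    · rw [orb_sn] at h1
      simp at h1
    · by_cases hik : i = k
      · subst hik
        rw [orb_same, Option.map_eq_some_iff] at h1
        obtain ⟨d, _, hd⟩ := h1
        simp only [Sum.inr.injEq] at hd
        subst hd
        exact ⟨some_mem_blk _ _, some_mem_blk _ _⟩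
      · rw [orb_diff hik] at h1
        simp at h1

theorem update_le (e : Et A) : G κ (Function.update η e false) ≤ G κ (Function.update η e true) := by
  refine G_mono κ _ _ fun e' he' => ?_
  by_cases hee : e' = e
  · subst hee
    rw [Function.update_self]
  · rw [Function.update_of_ne hee] at he' ⊢
    exact he'

/-- a core which does not meet the block -/
theorem cr_avoid {k : ℕ} (e : Et A) (U : Finset (Vx A))
    (hU : CR k (G κ (Function.update η e true)) U) (hav : ∀ x, some ⟨e.1, x⟩ ∉ U) :
    CR k (G κ (Function.update η e false)) U := by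
  refine hU.mono fun x hx y hy hxy => ?_
  by_contra hno
  obtain ⟨z, rfl⟩ := (mem_blk e.1 x).1 (lost κ η e x y hxy hno).1
  exact hav z hx

theorem zero_joined (k s : ℕ) (i j : I) (hij : i ≠ j) (d : Cl (A i))
    (hκ : κ (.inr ⟨s(i, j), by rw [Sym2.mk_isDiag_iff]; exact hij⟩) = true)
    (hki : k ≤ Fintype.card (A i)) (hkj : k ≤ Fintype.card (A j)) :
    ∑ η : Et A → Bool, sgn η * bit (HCR k s (G κ η)) = 0 := by
  classical
  refine toggle_zero _ ⟨i, d⟩ (toggle_iff (fun η => bit (HCR k s (G κ η))) _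
    fun η => bit_congr ⟨fun hp => ?_, fun hp => hp.mono (update_le κ η _)⟩)
  obtain ⟨U, hs, hU⟩ := hp
  by_cases hmeet : ∃ x, (some ⟨i, x⟩ : Vx A) ∈ U
  · obtain ⟨x0, hx0⟩ := hmeet
    set G' := G κ (Function.update η ⟨i, d⟩ false) with hG'
    have hadj : ∀ (x : A i) (y : A j), G'.Adj (some ⟨i, x⟩) (some ⟨j, y⟩) := fun x y =>
      (G_II κ _ hij x y).2 hκ
    have hsub : ∀ v, (v ∈ U ∪ (blk A i ∪ blk A j)) ↔ v ∈ U ∨ v ∈ blk A i ∨ v ∈ blk A j := by
      intro v
      rw [Finset.mem_union, Finset.mem_union]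
    refine ⟨U ∪ (blk A i ∪ blk A j), hs.trans (Finset.card_le_card Finset.subset_union_left), ?_, ?_⟩
    · refine con_glue hU.1 ?_ ⟨_, Finset.mem_inter.2 ⟨hx0, Finset.mem_union_left _
        (some_mem_blk _ _)⟩⟩ ?_
      · intro B hB hBne hBU
        by_cases h1 : ∃ x : A i, (some ⟨i, x⟩ : Vx A) ∈ B
        · obtain ⟨x, hx⟩ := h1
          by_cases h2 : ∃ y : A j, (some ⟨j, y⟩ : Vx A) ∉ B
          · obtain ⟨y, hy⟩ := h2
            exact ⟨_, hx, _, Finset.mem_union_right _ (some_mem_blk _ _), hy, hadj x y⟩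
          · push Not at h2
            obtain ⟨c, hc, hcB⟩ : ∃ c ∈ blk A i ∪ blk A j, c ∉ B := by
              by_contra hcon
              push Not at hcon
              exact hBU (Finset.Subset.antisymm hB hcon)
            rcases Finset.mem_union.1 hc with h5 | h5
            · obtain ⟨x', rfl⟩ := (mem_blk i c).1 h5
              exact ⟨_, h2 0, _, hc, hcB, (hadj x' 0).symm⟩
            · obtain ⟨y, rfl⟩ := (mem_blk j c).1 h5
              exact absurd (h2 y) hcB
        · push Not at h1
          obtain ⟨c, hc⟩ := hBne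
          rcases Finset.mem_union.1 (hB hc) with h5 | h5
          · obtain ⟨x', rfl⟩ := (mem_blk i c).1 h5
            exact absurd hc (h1 x')
          · obtain ⟨y, rfl⟩ := (mem_blk j c).1 h5
            exact ⟨_, hc, _, Finset.mem_union_left _ (some_mem_blk i 0), h1 0, (hadj 0 y).symm⟩
      · intro x y hxy hor
        by_contra hno
        obtain ⟨h1, h2⟩ := lost κ η ⟨i, d⟩ x y hxy hno
        rcases hor with h3 | h3
        · exact h3 (Finset.mem_union_left _ h1)
        · exact h3 (Finset.mem_union_left _ h2)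
    · intro v hv
      by_cases hvi : v ∈ blk A i
      · obtain ⟨x, rfl⟩ := (mem_blk i v).1 hvi
        refine le_dg (blk A j) (by rw [card_blk]; exact hkj) ?_
        intro z hz
        obtain ⟨y, rfl⟩ := (mem_blk j z).1 hz
        exact ⟨(hsub _).2 (Or.inr (Or.inr hz)), hadj x y⟩
      · rcases (hsub v).1 hv with h1 | h1 | h1
        · refine (hU.2 v h1).trans (dg_mono Finset.subset_union_left ?_)
          intro x _ hxy
          by_contra hno
          exact hvi (lost κ η ⟨i, d⟩ v x hxy hno).1
        · exact absurd h1 hvi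
        · obtain ⟨y, rfl⟩ := (mem_blk j v).1 h1
          refine le_dg (blk A i) (by rw [card_blk]; exact hki) ?_
          intro z hz
          obtain ⟨x, rfl⟩ := (mem_blk i z).1 hz
          exact ⟨(hsub _).2 (Or.inr (Or.inl hz)), (hadj x y).symm⟩
  · push Not at hmeet
    exact ⟨U, hs, cr_avoid κ η ⟨i, d⟩ U hU hmeet⟩

theorem zero_free (k s : ℕ) (i : I) (d : Cl (A i)) (h1 : κ (.inl i) = false) (h2 : Unj κ i)
    (hs : Fintype.card (A i) < s) :
    ∑ η : Et A → Bool, sgn η * bit (HCR k s (G κ η)) = 0 := by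
  classical
  refine toggle_zero _ ⟨i, d⟩ (toggle_iff (fun η => bit (HCR k s (G κ η))) _
    fun η => bit_congr ⟨fun hp => ?_, fun hp => hp.mono (update_le κ η _)⟩)
  obtain ⟨U, hs, hU⟩ := hp
  refine ⟨U, hs, cr_avoid κ η ⟨i, d⟩ U hU fun x hx => ?_⟩
  have hne : U.filter (fun v => v ∈ blk A i) ≠ U := by
    intro h
    have h3 : U ⊆ blk A i := by
      intro v hv
      rw [← h, Finset.mem_filter] at hv
      exact hv.2
    have h4 := Finset.card_le_card h3
    rw [card_blk] at h4
    omega
  obtain ⟨a, ha, c, hc, hcB, hac⟩ := hU.1 _ (Finset.filter_subset _ U)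
    ⟨_, Finset.mem_filter.2 ⟨hx, some_mem_blk i x⟩⟩ hne
  obtain ⟨x', rfl⟩ := (mem_blk i a).1 (Finset.mem_filter.1 ha).2
  have hci : c ∉ blk A i := fun h => hcB (Finset.mem_filter.2 ⟨hc, h⟩)
  rcases c with _ | ⟨i', y⟩
  · have := (G_ns κ _ i x').1 hac.symm
    rw [h1] at this
    cases this
  · by_cases hii : i = i'
    · subst hii
      exact hci (some_mem_blk _ _)
    · have := (G_II κ _ hii x' y).1 hac
      rw [h2 i' hii] at this
      cases this

variable (I) in
/-- the good key -/
def κ0 : Ky I → Bool := Sum.elim (fun _ => true) (fun _ => false)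

theorem unj0 (i : I) : Unj (κ0 I) i := fun _ _ => rfl

open Classical in
theorem good_iff (k s : ℕ) (hs2 : 2 ≤ s) (h1 : ∀ i, k ≤ Fintype.card (A i)) (η : Et A → Bool) :
    HCR k s (G (κ0 I) η) ↔ s ≤ 1 + ∑ i ∈ Finset.univ.filter
      (fun i => k ≤ ID (fun d => η ⟨i, d⟩) + 1), Fintype.card (A i) := by
  constructor
  · rintro ⟨U, hs, hU⟩
    have h2 : U ⊆ insert none ((Finset.univ.filter
      (fun i => k ≤ ID (fun d => η ⟨i, d⟩) + 1)).biUnion (blk A)) := by
      intro v hv
      rw [Finset.mem_insert]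
      rcases v with _ | ⟨i, x⟩
      · exact Or.inl rfl
      · right
        rw [Finset.mem_biUnion]
        refine ⟨i, Finset.mem_filter.2 ⟨Finset.mem_univ _, ?_⟩, some_mem_blk _ _⟩
        exact (hU.2 _ hv).trans (dg_unj (κ0 I) η U i (unj0 i) x)
    refine hs.trans ((Finset.card_le_card h2).trans ((Finset.card_insert_le _ _).trans ?_))
    rw [add_comm]
    refine Nat.add_le_add_left (Finset.card_biUnion_le.trans ?_) 1
    exact le_of_eq (Finset.sum_congr rfl fun i _ => card_blk i)
  · intro h
    set W := Finset.univ.filter (fun i => k ≤ ID (fun d => η ⟨i, d⟩) + 1) with hW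
    have hadj : ∀ i (x : A i), (G (κ0 I) η).Adj none (some ⟨i, x⟩) := fun i x =>
      (G_ns (κ0 I) η i x).2 rfl
    refine ⟨insert none (W.biUnion (blk A)), ?_, ?_, ?_⟩
    · rw [Finset.card_insert_of_notMem, Finset.card_biUnion]
      · rw [Finset.sum_congr rfl fun i _ => card_blk (A := A) i, add_comm]
        exact h
      · intro i _ j _ hij
        rw [Function.onFun, Finset.disjoint_left]
        intro z hz hz'
        obtain ⟨x, rfl⟩ := (mem_blk i z).1 hz
        obtain ⟨y, hy⟩ := (mem_blk j _).1 hz'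
        simp only [Option.some.injEq, Sigma.mk.injEq] at hy
        exact hij hy.1
      · rw [Finset.mem_biUnion]
        rintro ⟨i, _, hi⟩
        exact none_notMem_blk i hi
    · intro B hB hBne hBU
      by_cases hn : (none : Vx A) ∈ B
      · obtain ⟨c, hc, hcB⟩ : ∃ c ∈ insert none (W.biUnion (blk A)), c ∉ B := by
          by_contra hcon
          push Not at hcon
          exact hBU (Finset.Subset.antisymm hB hcon)
        rcases c with _ | ⟨i, x⟩
        · exact absurd hn hcB
        · exact ⟨none, hn, _, hc, hcB, hadj i x⟩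
      · obtain ⟨a, ha⟩ := hBne
        rcases a with _ | ⟨i, x⟩
        · exact absurd ha hn
        · exact ⟨_, ha, none, Finset.mem_insert_self _ _, hn, (hadj i x).symm⟩
    · intro v hv
      rcases v with _ | ⟨i, x⟩
      · obtain ⟨i, hi⟩ : W.Nonempty := by
          rw [Finset.nonempty_iff_ne_empty]
          intro h0
          rw [h0, Finset.sum_empty] at h
          omega
        refine le_dg (blk A i) (by rw [card_blk]; exact h1 i) ?_
        intro z hz
        obtain ⟨x, rfl⟩ := (mem_blk i z).1 hz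
        exact ⟨Finset.mem_insert_of_mem (Finset.mem_biUnion.2 ⟨i, hi, hz⟩), hadj i x⟩
      · have hi : i ∈ W := by
          rw [Finset.mem_insert] at hv
          rcases hv with hv | hv
          · cases hv
          · rw [Finset.mem_biUnion] at hv
            obtain ⟨j, hj, hv⟩ := hv
            obtain ⟨y, hy⟩ := (mem_blk j _).1 hv
            simp only [Option.some.injEq, Sigma.mk.injEq] at hy
            rw [hy.1]
            exact hj
        obtain ⟨S, hS1, hS2, hS3⟩ := card_nbr (κ0 I) η i x
        refine le_dg (insert none S) ?_ ?_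
        · rw [Finset.card_insert_of_notMem (fun h => none_notMem_blk i (hS1 h)), hS3]
          exact (Finset.mem_filter.1 hi).2
        · intro z hz
          rw [Finset.mem_insert] at hz
          rcases hz with rfl | hz
          · exact ⟨Finset.mem_insert_self _ _, (hadj i x).symm⟩
          · exact ⟨Finset.mem_insert_of_mem (Finset.mem_biUnion.2 ⟨i, hi, hS1 hz⟩),
              ((hS2 z).1 hz).2⟩

/-- the value of a block -/
noncomputable def om (k : ℕ) (B : Type) [AddCommGroup B] [DecidableEq B] [Fintype B] : ℤ :=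
  ∑ χ : Cl B → Bool, sgn χ * bit (k ≤ ID χ + 1)

variable (I) in
/-- the signed number of sets of blocks of total size at least `s - 1` -/
noncomputable def NN (f : I → ℕ) (s : ℕ) : ℤ :=
  ∑ W : Finset I, (-1) ^ (Wᶜ).card * bit (s ≤ 1 + ∑ i ∈ W, f i)

theorem eval_rel {n q k s : ℕ} {P : SimpleGraph (Fin n) → Prop} (hP : GP n q P)
    (hlow : ∀ H, HEC k s H → P H) (hup : ∀ H, P H → HCR k s H)
    (hV : Fintype.card (Vx A) = n) (p : ℕ) [Fact p.Prime] {ι : Type} [Fintype ι]
    (a : ι → ∀ i, A i) (c : ∀ i, A i) (hap : ∀ i, p • a i = 0)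
    (hgen : ∀ t : ∀ i, A i, t ∈ AddSubgroup.closure (insert c (Set.range a)))
    (hq : q < n.choose 2) (hs2 : 2 ≤ s) (h1 : ∀ i, k ≤ Fintype.card (A i))
    (h2 : ∀ i, Fintype.card (A i) < s) (hne : ∀ i, Nonempty (Cl (A i))) :
    (∏ i, om k (A i)) * NN I (fun i => Fintype.card (A i)) s = 0 := by
  classical
  have hrel := relation hP hV p a c hap hgen hq
  have hPV : ∀ (κ : Ky I → Bool) (η : Et A → Bool), PV P (Vx A) (G κ η) ↔ HCR k s (G κ η) := by
    intro κ η
    constructor
    · rintro ⟨e, he⟩
      refine hcr_map e.symm (fun u v => ?_) (hup _ he)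
      rw [← SimpleGraph.map_adj_apply (f := e.toEmbedding)]
      simp
    · intro h
      obtain ⟨e⟩ : Nonempty (Vx A ≃ Fin n) := Fintype.card_eq.1 (by rw [hV, Fintype.card_fin])
      refine ⟨e, hlow _ (hec_map e (fun u v => ?_) (key κ η k s h1 h2 h))⟩
      exact SimpleGraph.map_adj_apply (f := e.toEmbedding)
  have h3 := sum_split (A := Ky I) (B := Et A) (fun χ : Jx A → Bool =>
    sgn χ * bit (PV P (Vx A) (GR orb orb_symm orb_self χ)))
  have h4 : ∑ κ : Ky I → Bool, sgn κ * ∑ η : Et A → Bool, sgn η * bit (HCR k s (G κ η)) = 0 := by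
    rw [← hrel, h3]
    refine Finset.sum_congr rfl fun κ _ => ?_
    rw [Finset.mul_sum]
    refine Finset.sum_congr rfl fun η _ => ?_
    have h5 := sgn_sum (Sum.elim κ η)
    simp only [Sum.elim_inl, Sum.elim_inr] at h5
    rw [h5, mul_assoc]
    congr 2
    exact (bit_congr (hPV κ η)).symm
  rw [Finset.sum_eq_single (κ0 I)] at h4
  · have h5 : sgn (κ0 I) ≠ 0 := by
      unfold sgn
      rw [Finset.prod_ne_zero_iff]
      intro j _
      split_ifs <;> norm_num
    have h6 := (mul_eq_zero.1 h4).resolve_left h5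
    rw [← h6]
    have h7 := sum_whole (I := I) (X := fun i => Cl (A i)) (fun i χ => k ≤ ID χ + 1)
      (fun i => om k (A i)) (fun i => rfl)
      (fun W => bit (s ≤ 1 + ∑ i ∈ Finset.univ.filter W, Fintype.card (A i)))
    unfold NN
    have h8 : ∀ η : Et A → Bool, sgn η * bit (HCR k s (G (κ0 I) η)) =
        sgn η * (fun W : I → Prop => bit (s ≤ 1 + ∑ i ∈ Finset.univ.filter W,
          Fintype.card (A i))) (fun i => k ≤ ID (fun d => η ⟨i, d⟩) + 1) := by
      intro η
      simp only
      rw [bit_congr (good_iff k s hs2 h1 η)]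
      congr!
    refine Eq.trans ?_ ((Finset.sum_congr rfl fun η _ => h8 η).trans h7).symm
    congr 1
    refine Finset.sum_congr rfl fun W _ => ?_
    refine congrArg (fun t : ℕ => (-1 : ℤ) ^ (Wᶜ).card * bit (s ≤ 1 + t)) ?_
    refine Finset.sum_congr ?_ fun _ _ => rfl
    ext i
    simp
  · intro κ _ hκ
    rw [mul_eq_zero]
    right
    by_cases hJ : ∃ i j : I, ∃ h : i ≠ j,
        κ (.inr ⟨s(i, j), by rw [Sym2.mk_isDiag_iff]; exact h⟩) = true
    · obtain ⟨i, j, hij, hk⟩ := hJ
      obtain ⟨d⟩ := hne i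
      exact zero_joined κ k s i j hij d hk (h1 i) (h1 j)
    · push Not at hJ
      have hJ' : ∀ i, Unj κ i := fun i j hij => by simpa using hJ i j hij
      by_cases hf : ∃ i : I, κ (.inl i) = false
      · obtain ⟨i, hi⟩ := hf
        obtain ⟨d⟩ := hne i
        exact zero_free κ k s i d hi (hJ' i) (h2 i)
      · push Not at hf
        exfalso
        apply hκ
        funext x
        rcases x with i | ⟨e, he⟩
        · simpa [κ0] using hf i
        · induction e using Sym2.ind with
          | _ i j =>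
          have hij : i ≠ j := by rwa [Sym2.mk_isDiag_iff] at he
          exact hJ' i j hij
  · intro h
    exact absurd (Finset.mem_univ _) h

end

end Pool.Agent.TH669.KC
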