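import Pool.Agent.TH669.KC.Model
import Pool.Agent.TH669.KC.Defs

set_option autoImplicit false
set_option linter.unusedSectionVars false

/-!
# In the invariant graphs a large core is edge-connected
-/

namespace Pool.Agent.TH669.KC

open Finset
open Pool.Agent.TH669.KP (sgn bit GR GR_adj)

section

variable {I : Type} {A : I → Type} [∀ i, AddCommGroup (A i)] [∀ i, DecidableEq (A i)]
  [DecidableEq I]

/-- the keys: orbits of pairs in different parts -/
abbrev Ky (I : Type) : Type := I ⊕ Pr I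

variable (A) in
/-- the inner orbits -/
abbrev Et : Type := Σ i, Cl (A i)

/-- the graph of a configuration -/
def G (κ : Ky I → Bool) (η : Et A → Bool) : SimpleGraph (Vx A) :=
  GR orb orb_symm orb_self (Sum.elim κ η)

/-- the connection set of a block -/
def IA {B : Type} [AddCommGroup B] [DecidableEq B] (χ : Cl B → Bool) (z : B) : Prop :=
  ∃ d, cls z = some d ∧ χ d = true

theorem IA_neg {B : Type} [AddCommGroup B] [DecidableEq B] (χ : Cl B → Bool) (z : B) :
    IA χ (-z) ↔ IA χ z := by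
  unfold IA
  rw [cls_neg]

theorem not_IA_zero {B : Type} [AddCommGroup B] [DecidableEq B] (χ : Cl B → Bool) :
    ¬ IA χ (0 : B) := by
  rintro ⟨d, hd, _⟩
  rw [cls_zero] at hd
  cases hd

open Classical in
/-- the inner degree -/
noncomputable def ID {B : Type} [AddCommGroup B] [DecidableEq B] [Fintype B] (χ : Cl B → Bool) : ℕ :=
  (univ.filter fun z : B => IA χ z).card

variable (κ : Ky I → Bool) (η : Et A → Bool)

theorem G_ns (i : I) (x : A i) : (G κ η).Adj none (some ⟨i, x⟩) ↔ κ (.inl i) = true := by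
  rw [G, GR_adj, orb_ns]
  simp

theorem G_II {i j : I} (h : i ≠ j) (x : A i) (y : A j) :
    (G κ η).Adj (some ⟨i, x⟩) (some ⟨j, y⟩) ↔
      κ (.inr ⟨s(i, j), by rw [Sym2.mk_isDiag_iff]; exact h⟩) = true := by
  rw [G, GR_adj, orb_diff h]
  simp

theorem G_same (i : I) (x y : A i) :
    (G κ η).Adj (some ⟨i, x⟩) (some ⟨i, y⟩) ↔ IA (fun d => η ⟨i, d⟩) (x - y) := by
  rw [G, GR_adj, orb_same, IA]
  constructor
  · rintro ⟨j, h1, h2⟩
    rw [Option.map_eq_some_iff] at h1
    obtain ⟨d, hd, rfl⟩ := h1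
    exact ⟨d, hd, h2⟩
  · rintro ⟨d, hd, h2⟩
    exact ⟨.inr ⟨i, d⟩, by rw [hd]; rfl, h2⟩

theorem G_tr (t : ∀ i, A i) (u v : Vx A) : (G κ η).Adj (tr t u) (tr t v) ↔ (G κ η).Adj u v := by
  rw [G, GR_adj, GR_adj, orb_tr]

variable [∀ i, Fintype (A i)]

variable (A) in
/-- vertices of a block -/
def blk (i : I) : Finset (Vx A) :=
  (Finset.univ : Finset (A i)).map ⟨fun x => some ⟨i, x⟩, fun x y h => by simpa using h⟩

theorem card_blk (i : I) : (blk A i).card = Fintype.card (A i) := by
  unfold blk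
  rw [Finset.card_map, Finset.card_univ]

theorem mem_blk (i : I) (z : Vx A) : z ∈ blk A i ↔ ∃ x, z = some ⟨i, x⟩ := by
  unfold blk
  rw [Finset.mem_map]
  constructor
  · rintro ⟨x, _, rfl⟩
    exact ⟨x, rfl⟩
  · rintro ⟨x, rfl⟩
    exact ⟨x, Finset.mem_univ _, rfl⟩

theorem none_notMem_blk (i : I) : (none : Vx A) ∉ blk A i := by
  rw [mem_blk]
  rintro ⟨x, hx⟩
  cases hx

theorem some_mem_blk (i : I) (x : A i) : (some ⟨i, x⟩ : Vx A) ∈ blk A i := (mem_blk i _).2 ⟨x, rfl⟩

/-- the number of neighbours inside the block -/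
theorem card_nbr (i : I) (x : A i) : ∃ S : Finset (Vx A), S ⊆ blk A i ∧
    (∀ z, z ∈ S ↔ z ∈ blk A i ∧ (G κ η).Adj (some ⟨i, x⟩) z) ∧
    S.card = ID (fun d => η ⟨i, d⟩) := by
  classical
  refine ⟨(univ.filter fun z : A i => IA (fun d => η ⟨i, d⟩) z).map
    ⟨fun z => some ⟨i, x - z⟩, fun y z h => by simpa using h⟩, ?_, ?_, by
      rw [Finset.card_map]; rfl⟩
  · intro z hz
    rw [Finset.mem_map] at hz
    obtain ⟨y, _, rfl⟩ := hz
    exact some_mem_blk i _
  · intro z
    rw [Finset.mem_map, mem_blk]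
    constructor
    · rintro ⟨y, hy, rfl⟩
      rw [Finset.mem_filter] at hy
      refine ⟨⟨_, rfl⟩, ?_⟩
      show (G κ η).Adj (some ⟨i, x⟩) (some ⟨i, x - y⟩)
      rw [G_same, sub_sub_cancel]
      exact hy.2
    · rintro ⟨⟨y, rfl⟩, h⟩
      rw [G_same] at h
      refine ⟨x - y, Finset.mem_filter.2 ⟨Finset.mem_univ _, h⟩, ?_⟩
      show (some ⟨i, x - (x - y)⟩ : Vx A) = some ⟨i, y⟩
      rw [sub_sub_cancel]

/-- the block `i` is not joined to another block -/
def Unj (κ : Ky I → Bool) (i : I) : Prop :=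
  ∀ j (h : i ≠ j), κ (.inr ⟨s(i, j), by rw [Sym2.mk_isDiag_iff]; exact h⟩) = false

theorem dg_unj (U : Finset (Vx A)) (i : I) (hi : Unj κ i) (x : A i) :
    dg (G κ η) U (some ⟨i, x⟩) ≤ ID (fun d => η ⟨i, d⟩) + 1 := by
  classical
  obtain ⟨S, hS, hS2, hS3⟩ := card_nbr κ η i x
  unfold dg
  have h1 : (U.filter fun z => (G κ η).Adj (some ⟨i, x⟩) z) ⊆ insert none S := by
    intro z hz
    rw [Finset.mem_filter] at hz
    rw [Finset.mem_insert, hS2]
    rcases z with _ | ⟨j, y⟩
    · exact Or.inl rfl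
    · right
      by_cases hij : i = j
      · subst hij
        exact ⟨some_mem_blk _ _, hz.2⟩
      · have := (G_II κ η hij x y).1 hz.2
        rw [hi j hij] at this
        cases this
  refine (Finset.card_le_card h1).trans ((Finset.card_insert_le _ _).trans ?_)
  rw [hS3]

theorem cut_compl {V : Type} [DecidableEq V] (H : SimpleGraph V) {B U : Finset V} (h : B ⊆ U) :
    cut H (U \ B) U ≤ cut H B U := by
  classical
  refine le_cut (((((U \ B) ×ˢ U).filter fun x => x.2 ∉ U \ B ∧ H.Adj x.1 x.2)).map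
    ⟨Prod.swap, Prod.swap_injective⟩) (by rw [Finset.card_map]; unfold cut; exact le_of_eq (by congr)) ?_
  intro x hx
  rw [Finset.mem_map] at hx
  obtain ⟨⟨u, v⟩, huv, rfl⟩ := hx
  rw [Finset.mem_filter, Finset.mem_product] at huv
  obtain ⟨⟨h1, h2⟩, h3, h4⟩ := huv
  simp only [Finset.mem_sdiff, not_and, not_not] at h1 h2 h3 h4
  exact ⟨h3 h2, h1.1, h1.2, h4.symm⟩

/-- unjoined blocks attached to the fixed point -/
theorem cut_unj (k : ℕ) (U B : Finset (Vx A)) (i : I) (hatt : κ (.inl i) = true)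
    (hnU : none ∈ U) (hnB : none ∉ B) (hbU : blk A i ⊆ U)
    (hID : k ≤ ID (fun d => η ⟨i, d⟩) + 1) (hne : ∃ x, some ⟨i, x⟩ ∈ B) :
    k ≤ cut (G κ η) B U := by
  classical
  set S : Finset (A i) := univ.filter fun x => some ⟨i, x⟩ ∈ B with hS
  have hSpos : 1 ≤ S.card := by
    obtain ⟨x, hx⟩ := hne
    exact Finset.card_pos.2 ⟨x, Finset.mem_filter.2 ⟨Finset.mem_univ _, hx⟩⟩
  choose N hN1 hN2 hN3 using fun x => card_nbr κ η i x
  -- pairs
  set T : Finset (Vx A × Vx A) := S.biUnion fun x =>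
    (insert none ((N x).filter fun z => z ∉ B)).map
      ⟨fun z => ((some ⟨i, x⟩ : Vx A), z), fun y z h => by simpa using h⟩ with hT
  have hTcard : T.card = ∑ x ∈ S, (((N x).filter fun z => z ∉ B).card + 1) := by
    rw [hT, Finset.card_biUnion]
    · refine Finset.sum_congr rfl fun x _ => ?_
      rw [Finset.card_map, Finset.card_insert_of_notMem]
      intro h
      exact none_notMem_blk i (hN1 x (Finset.mem_filter.1 h).1)
    · intro x _ y _ hxy
      rw [Function.onFun, Finset.disjoint_left]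
      intro z hz hz'
      rw [Finset.mem_map] at hz hz'
      obtain ⟨z1, _, rfl⟩ := hz
      obtain ⟨z2, _, h2⟩ := hz'
      apply hxy
      have h3 : (some ⟨i, y⟩ : Vx A) = some ⟨i, x⟩ := congrArg Prod.fst h2
      simpa using h3.symm
  refine le_cut T ?_ ?_
  · rw [hTcard]
    have h1 : ∀ x ∈ S, ID (fun d => η ⟨i, d⟩) + 1 ≤ ((N x).filter fun z => z ∉ B).card + S.card := by
      intro x hx
      have h2 := Finset.card_filter_add_card_filter_not (s := N x) (fun z => z ∉ B)
      have h3 : ((N x).filter fun z => ¬ z ∉ B).card ≤ (S.erase x).card := by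
        have h4 : ((N x).filter fun z => ¬ z ∉ B) ⊆ (S.erase x).map
            ⟨fun y => (some ⟨i, y⟩ : Vx A), fun y z h => by simpa using h⟩ := by
          intro z hz
          rw [Finset.mem_filter, not_not] at hz
          obtain ⟨y, rfl⟩ := (mem_blk i z).1 (hN1 x hz.1)
          rw [Finset.mem_map]
          refine ⟨y, Finset.mem_erase.2 ⟨?_, Finset.mem_filter.2 ⟨Finset.mem_univ _, hz.2⟩⟩, rfl⟩
          rintro rfl
          exact (G κ η).loopless.irrefl _ ((hN2 y _).1 hz.1).2
        refine (Finset.card_le_card h4).trans ?_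
        rw [Finset.card_map]
      rw [Finset.card_erase_of_mem hx] at h3
      have h5 := hN3 x
      omega
    rcases Nat.lt_or_ge S.card k with h2 | h2
    · have h3 : ∑ x ∈ S, (k + 1 - S.card) ≤ ∑ x ∈ S, (((N x).filter fun z => z ∉ B).card + 1) := by
        refine Finset.sum_le_sum fun x hx => ?_
        have := h1 x hx
        omega
      refine le_trans ?_ h3
      rw [Finset.sum_const, smul_eq_mul]
      obtain ⟨r, hr⟩ : ∃ r, S.card = r + 1 := ⟨S.card - 1, by omega⟩
      obtain ⟨t, ht⟩ : ∃ t, k = r + 1 + t := ⟨k - (r + 1), by omega⟩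
      rw [hr, ht]
      have h4 : r + 1 + t + 1 - (r + 1) = t + 1 := by omega
      rw [h4]
      nlinarith [Nat.zero_le (r * t)]
    · refine h2.trans ?_
      rw [Finset.card_eq_sum_ones]
      exact Finset.sum_le_sum fun x _ => by omega
  · intro z hz
    rw [hT, Finset.mem_biUnion] at hz
    obtain ⟨x, hx, hz⟩ := hz
    rw [Finset.mem_map] at hz
    obtain ⟨y, hy, rfl⟩ := hz
    have hxB : (some ⟨i, x⟩ : Vx A) ∈ B := (Finset.mem_filter.1 hx).2
    rw [Finset.mem_insert, Finset.mem_filter] at hy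
    rcases hy with rfl | ⟨hy1, hy2⟩
    · exact ⟨hxB, hnU, hnB, ((G_ns κ η i x).2 hatt).symm⟩
    · exact ⟨hxB, hbU (hN1 x hy1), hy2, ((hN2 x y).1 hy1).2⟩

/-- joined blocks -/
theorem cut_joined (k : ℕ) (U B : Finset (Vx A)) (i j : I) (hij : i ≠ j)
    (hκ : κ (.inr ⟨s(i, j), by rw [Sym2.mk_isDiag_iff]; exact hij⟩) = true)
    (hiU : blk A i ⊆ U) (hjU : blk A j ⊆ U) (hki : k ≤ Fintype.card (A i))
    (hkj : k ≤ Fintype.card (A j)) (hcut : cut (G κ η) B U < k)
    (hne : ∃ x, some ⟨i, x⟩ ∈ B) : blk A i ⊆ B ∧ blk A j ⊆ B := by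
  classical
  obtain ⟨x, hx⟩ := hne
  have hadj : ∀ (x : A i) (y : A j), (G κ η).Adj (some ⟨i, x⟩) (some ⟨j, y⟩) := fun x y =>
    (G_II κ η hij x y).2 hκ
  have h1 : blk A i ⊆ B := by
    intro z hz
    obtain ⟨x', rfl⟩ := (mem_blk i z).1 hz
    by_contra hno
    refine absurd hcut (not_lt.2 ?_)
    let f : A j → Vx A × Vx A := fun y => if (some ⟨j, y⟩ : Vx A) ∈ B then
      ((some ⟨j, y⟩ : Vx A), (some ⟨i, x'⟩ : Vx A)) else (some ⟨i, x⟩, some ⟨j, y⟩)
    have hf : Function.Injective f := by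
      intro y y' h
      simp only [f] at h
      split_ifs at h with h2 h3 h3
      · have := congrArg Prod.fst h
        simpa using this
      · have := congrArg Prod.fst h
        simp only [Option.some.injEq, Sigma.mk.injEq] at this
        exact absurd this.1.symm hij
      · have := congrArg Prod.fst h
        simp only [Option.some.injEq, Sigma.mk.injEq] at this
        exact absurd this.1 hij
      · have := congrArg Prod.snd h
        simpa using this
    refine le_cut ((Finset.univ : Finset (A j)).map ⟨f, hf⟩) ?_ ?_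
    · rw [Finset.card_map, Finset.card_univ]
      exact hkj
    · intro z hz
      rw [Finset.mem_map] at hz
      obtain ⟨y, _, rfl⟩ := hz
      simp only [Function.Embedding.coeFn_mk, f]
      split_ifs with h2
      · exact ⟨h2, hiU (some_mem_blk _ _), hno, (hadj x' y).symm⟩
      · exact ⟨hx, hjU (some_mem_blk _ _), h2, hadj x y⟩
  refine ⟨h1, ?_⟩
  intro z hz
  obtain ⟨y, rfl⟩ := (mem_blk j z).1 hz
  by_contra hno
  refine absurd hcut (not_lt.2 ?_)
  refine le_cut ((Finset.univ : Finset (A i)).map ⟨fun x => ((some ⟨i, x⟩ : Vx A),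
    (some ⟨j, y⟩ : Vx A)), fun x x' h => by simpa using h⟩) ?_ ?_
  · rw [Finset.card_map, Finset.card_univ]
    exact hki
  · intro z hz
    rw [Finset.mem_map] at hz
    obtain ⟨x', _, rfl⟩ := hz
    exact ⟨h1 (some_mem_blk _ _), hjU (some_mem_blk _ _), hno, hadj x' y⟩

variable [Fintype I]

theorem key (k s : ℕ) (h1 : ∀ i, k ≤ Fintype.card (A i)) (h2 : ∀ i, Fintype.card (A i) < s)
    (h : HCR k s (G κ η)) : HEC k s (G κ η) := by
  classical
  obtain ⟨U0, hU0s, hU0⟩ := h
  obtain ⟨U, hUmem, hUmax⟩ := Finset.exists_max_image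
    ((Finset.univ : Finset (Finset (Vx A))).filter fun U => s ≤ U.card ∧ CR k (G κ η) U)
    Finset.card ⟨U0, Finset.mem_filter.2 ⟨Finset.mem_univ _, hU0s, hU0⟩⟩
  rw [Finset.mem_filter] at hUmem
  obtain ⟨_, hUs, hU⟩ := hUmem
  have hmax : ∀ U', CR k (G κ η) U' → (U ∩ U').Nonempty → U' ⊆ U := by
    intro U' hU' hne
    have h3 := cr_union hU hU' hne
    have h4 : U ⊆ U ∪ U' := Finset.subset_union_left
    have h5 := hUmax (U ∪ U') (Finset.mem_filter.2 ⟨Finset.mem_univ _,
      hUs.trans (Finset.card_le_card h4), h3⟩)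
    have h6 := Finset.eq_of_subset_of_card_le h4 h5
    rw [h6]
    exact Finset.subset_union_right
  have hout : ∀ i, ∃ u ∈ U, u ∉ blk A i := by
    intro i
    by_contra hcon
    push Not at hcon
    have := Finset.card_le_card (show U ⊆ blk A i from hcon)
    rw [card_blk] at this
    have := h2 i
    omega
  -- saturation
  have hsat : ∀ i x, some ⟨i, x⟩ ∈ U → blk A i ⊆ U := by
    intro i x hx z hz
    obtain ⟨y, rfl⟩ := (mem_blk i z).1 hz
    set t : ∀ i, A i := Function.update 0 i (y - x) with ht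
    have h3 := cr_map (G := G κ η) (G' := G κ η) (tr t) (fun u v => G_tr κ η t u v) hU
    obtain ⟨u, huU, hui⟩ := hout i
    have h4 : tr t u = u := by
      rcases u with _ | ⟨j, w⟩
      · rfl
      · have hji : j ≠ i := by
          rintro rfl
          exact hui (some_mem_blk _ _)
        rw [tr_some, ht, Function.update_of_ne hji]
        simp
    have h5 := hmax _ h3 ⟨u, Finset.mem_inter.2 ⟨huU, Finset.mem_map.2 ⟨u, huU, h4⟩⟩⟩
    apply h5
    rw [Finset.mem_map]
    refine ⟨_, hx, ?_⟩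
    show tr t (some ⟨i, x⟩) = _
    rw [tr_some, ht, Function.update_self, add_sub_cancel]
  have hjoin : ∀ i j (hij : i ≠ j),
      κ (.inr ⟨s(i, j), by rw [Sym2.mk_isDiag_iff]; exact hij⟩) = true →
      blk A i ⊆ U → blk A j ⊆ U := by
    intro i j hij hκ hi
    have hadj : ∀ (x : A i) (y : A j), (G κ η).Adj (some ⟨i, x⟩) (some ⟨j, y⟩) := fun x y =>
      (G_II κ η hij x y).2 hκ
    have h3 : CR k (G κ η) (U ∪ blk A j) := by
      constructor
      · intro B hB hBne hBU
        by_cases hz : ∃ x : A i, (some ⟨i, x⟩ : Vx A) ∈ B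
        · obtain ⟨x, hx⟩ := hz
          by_cases h4 : B ∩ U = U
          · obtain ⟨c, hc, hcB⟩ : ∃ c ∈ U ∪ blk A j, c ∉ B := by
              by_contra hcon
              push Not at hcon
              exact hBU (Finset.Subset.antisymm hB hcon)
            rcases Finset.mem_union.1 hc with h5 | h5
            · rw [← h4] at h5
              exact absurd (Finset.mem_inter.1 h5).1 hcB
            · obtain ⟨y, rfl⟩ := (mem_blk j c).1 h5
              exact ⟨_, hx, _, hc, hcB, hadj x y⟩
          · obtain ⟨a, ha, c, hc, hcB, hac⟩ := hU.1 (B ∩ U) Finset.inter_subset_right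
              ⟨_, Finset.mem_inter.2 ⟨hx, hi (some_mem_blk _ _)⟩⟩ h4
            rw [Finset.mem_inter] at ha hcB
            exact ⟨a, ha.1, c, Finset.mem_union_left _ hc, fun h => hcB ⟨h, hc⟩, hac⟩
        · by_cases h4 : B ∩ U = ∅
          · obtain ⟨b, hb⟩ := hBne
            rcases Finset.mem_union.1 (hB hb) with h5 | h5
            · have : b ∈ B ∩ U := Finset.mem_inter.2 ⟨hb, h5⟩
              rw [h4] at this
              simp at this
            · obtain ⟨y, rfl⟩ := (mem_blk j b).1 h5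
              exact ⟨_, hb, some ⟨i, 0⟩, Finset.mem_union_left _ (hi (some_mem_blk _ _)),
                fun h => hz ⟨_, h⟩, (hadj 0 y).symm⟩
          · obtain ⟨a, ha, c, hc, hcB, hac⟩ := hU.1 (B ∩ U) Finset.inter_subset_right
              (Finset.nonempty_iff_ne_empty.2 h4) (fun h => hz ⟨0, by
                have : (some ⟨i, 0⟩ : Vx A) ∈ B ∩ U := by
                  rw [h]
                  exact hi (some_mem_blk _ _)
                exact (Finset.mem_inter.1 this).1⟩)
            rw [Finset.mem_inter] at ha hcB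
            exact ⟨a, ha.1, c, Finset.mem_union_left _ hc, fun h => hcB ⟨h, hc⟩, hac⟩
      · intro v hv
        rcases Finset.mem_union.1 hv with h4 | h4
        · exact (hU.2 v h4).trans (dg_mono Finset.subset_union_left fun _ _ h => h)
        · obtain ⟨y, rfl⟩ := (mem_blk j v).1 h4
          refine le_dg (blk A i) (by rw [card_blk]; exact h1 i) ?_
          intro z hz
          obtain ⟨x, rfl⟩ := (mem_blk i z).1 hz
          exact ⟨Finset.mem_union_left _ (hi hz), (hadj x y).symm⟩
    have h4 := hmax _ h3 ⟨some ⟨i, 0⟩, Finset.mem_inter.2 ⟨hi (some_mem_blk _ _),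
      Finset.mem_union_left _ (hi (some_mem_blk _ _))⟩⟩
    exact Finset.subset_union_right.trans h4
  refine ⟨U, hUs, ?_⟩
  have main : ∀ B ⊆ U, B.Nonempty → B ≠ U → none ∉ B → k ≤ cut (G κ η) B U := by
    intro B hBU hBne hBU' hnB
    by_contra hcut
    rw [not_le] at hcut
    obtain ⟨a, ha, c, hc, hcB, hac⟩ := hU.1 B hBU hBne hBU'
    rcases a with _ | ⟨i, x⟩
    · exact hnB ha
    have hiU : blk A i ⊆ U := hsat i x (hBU ha)
    by_cases hJ : ∃ j, ∃ hij : i ≠ j,
        κ (.inr ⟨s(i, j), by rw [Sym2.mk_isDiag_iff]; exact hij⟩) = true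
    · have hJ' : ∀ j (hij : i ≠ j),
          κ (.inr ⟨s(i, j), by rw [Sym2.mk_isDiag_iff]; exact hij⟩) = true →
          blk A i ⊆ B ∧ blk A j ⊆ B := fun j hij hκ =>
        cut_joined κ η k U B i j hij hκ hiU (hjoin i j hij hκ hiU) (h1 i) (h1 j) hcut ⟨x, ha⟩
      obtain ⟨j, hij, hκ⟩ := hJ
      have hiB := (hJ' j hij hκ).1
      rcases c with _ | ⟨i', y⟩
      · have hatt := (G_ns κ η i x).1 hac.symm
        refine absurd hcut (not_lt.2 ?_)
        refine le_cut ((Finset.univ : Finset (A i)).map ⟨fun x => ((some ⟨i, x⟩ : Vx A),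
          (none : Vx A)), fun x x' h => by simpa using h⟩) ?_ ?_
        · rw [Finset.card_map, Finset.card_univ]
          exact h1 i
        · intro z hz
          rw [Finset.mem_map] at hz
          obtain ⟨x', _, rfl⟩ := hz
          exact ⟨hiB (some_mem_blk _ _), hc, hcB, ((G_ns κ η i x').2 hatt).symm⟩
      · by_cases hii : i = i'
        · subst hii
          exact hcB (hiB (some_mem_blk _ _))
        · have hκ' := (G_II κ η hii x y).1 hac
          exact hcB ((hJ' i' hii hκ').2 (some_mem_blk _ _))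
    · push Not at hJ
      have hJ' : Unj κ i := fun j hij => by simpa using hJ j hij
      obtain ⟨u, huU, hui⟩ := hout i
      obtain ⟨a', ha', c', hc', hcB', hac'⟩ := hU.1 (blk A i) hiU ⟨_, some_mem_blk i 0⟩
        (fun h => hui (by rw [h]; exact huU))
      obtain ⟨x', rfl⟩ := (mem_blk i a').1 ha'
      have hatt : κ (.inl i) = true ∧ none ∈ U := by
        rcases c' with _ | ⟨i', y⟩
        · exact ⟨(G_ns κ η i x').1 hac'.symm, hc'⟩
        · exfalso
          by_cases hii : i = i'
          · subst hii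
            exact hcB' (some_mem_blk _ _)
          · have := (G_II κ η hii x' y).1 hac'
            rw [hJ' i' hii] at this
            cases this
      have hID := (hU.2 _ (hiU (some_mem_blk i x))).trans (dg_unj κ η U i hJ' x)
      exact absurd hcut (not_lt.2 (cut_unj κ η k U B i hatt.1 hatt.2 hnB hiU hID ⟨x, ha⟩))
  intro B hBU hBne hBU'
  by_cases hnB : (none : Vx A) ∈ B
  · refine le_trans (main (U \ B) Finset.sdiff_subset ?_ ?_ ?_) (cut_compl _ hBU)
    · rw [Finset.sdiff_nonempty]
      intro h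
      exact hBU' (Finset.Subset.antisymm hBU h)
    · intro h
      obtain ⟨b, hb⟩ := hBne
      have : b ∈ U \ B := by rw [h]; exact hBU hb
      exact (Finset.mem_sdiff.1 this).2 hb
    · intro h
      exact (Finset.mem_sdiff.1 h).2 hnB
  · exact main B hBU hBne hBU' hnB

end

end Pool.Agent.TH669.KC
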