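import Pool.Agent.TH669.KP.Orb

set_option autoImplicit false
set_option linter.unusedSectionVars false

/-!
# The group and its orbits

One fixed point `none` and blocks `A i`, finite abelian groups, with translations.
-/

namespace Pool.Agent.TH669.KC

open Finset
open Pool.Agent.H119R2.Kp (GP PV)
open Pool.Agent.TH669.KP (sgn bit GR GR_adj rel_orb)

/-- unordered pairs of distinct elements -/
abbrev Pr (X : Type) : Type := {e : Sym2 X // ¬ e.IsDiag}

section cls

variable {B : Type} [AddCommGroup B] [DecidableEq B]

variable (B) in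
/-- classes of nonzero differences up to sign -/
abbrev Cl : Type := {e : Sym2 B // ∃ z : B, z ≠ 0 ∧ e = s(z, -z)}

/-- the class of a difference -/
def cls (z : B) : Option (Cl B) := if h : z = 0 then none else some ⟨s(z, -z), z, h, rfl⟩

theorem cls_zero : cls (0 : B) = none := dif_pos rfl

theorem cls_of_ne {z : B} (h : z ≠ 0) : cls z = some ⟨s(z, -z), z, h, rfl⟩ := dif_neg h

theorem cls_ne_none {z : B} (h : z ≠ 0) : cls z ≠ none := by
  rw [cls_of_ne h]
  simp

theorem cls_neg (z : B) : cls (-z) = cls z := by
  by_cases h : z = 0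
  · subst h
    rw [neg_zero]
  · rw [cls_of_ne h, cls_of_ne (neg_ne_zero.2 h)]
    simp only [neg_neg, Option.some.injEq, Subtype.mk.injEq]
    exact Sym2.eq_swap

theorem cls_inj {z z' : B} {d : Cl B} (h : cls z = some d) (h' : cls z' = some d) :
    z = z' ∨ z = -z' := by
  have hz : z ≠ 0 := by
    rintro rfl
    rw [cls_zero] at h
    cases h
  have hz' : z' ≠ 0 := by
    rintro rfl
    rw [cls_zero] at h'
    cases h'
  rw [cls_of_ne hz] at h
  rw [cls_of_ne hz', ← h] at h'
  simp only [Option.some.injEq, Subtype.mk.injEq, Sym2.eq_iff] at h'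
  rcases h' with ⟨h1, _⟩ | ⟨h1, _⟩
  · exact Or.inl h1.symm
  · exact Or.inr (by rw [h1, neg_neg])

theorem cls_surj (d : Cl B) : ∃ z : B, cls z = some d := by
  obtain ⟨e, z, hz, rfl⟩ := d
  exact ⟨z, cls_of_ne hz⟩

end cls

section

variable {I : Type} (A : I → Type) [∀ i, AddCommGroup (A i)] [∀ i, DecidableEq (A i)]
  [DecidableEq I]

/-- the vertices -/
abbrev Vx : Type := Option (Σ i, A i)

/-- the orbits -/
abbrev Jx : Type := (I ⊕ Pr I) ⊕ (Σ i, Cl (A i))

variable {A}

/-- the orbit of a pair -/
def orb : Vx A → Vx A → Option (Jx A)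
  | none, none => none
  | none, some u => some (.inl (.inl u.1))
  | some u, none => some (.inl (.inl u.1))
  | some u, some v => if h : u.1 = v.1 then
      (cls (u.2 - (h ▸ v.2))).map fun d => .inr ⟨u.1, d⟩
      else some (.inl (.inr ⟨s(u.1, v.1), by rw [Sym2.mk_isDiag_iff]; exact h⟩))

theorem orb_nn : orb (none : Vx A) none = none := rfl

theorem orb_ns (i : I) (x : A i) : orb (none : Vx A) (some ⟨i, x⟩) = some (.inl (.inl i)) := rfl

theorem orb_sn (i : I) (x : A i) : orb (some ⟨i, x⟩ : Vx A) none = some (.inl (.inl i)) := rfl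

theorem orb_same (i : I) (x y : A i) : orb (some ⟨i, x⟩ : Vx A) (some ⟨i, y⟩) =
    (cls (x - y)).map fun d => .inr ⟨i, d⟩ := by
  unfold orb
  simp

theorem orb_diff {i j : I} (h : i ≠ j) (x : A i) (y : A j) :
    orb (some ⟨i, x⟩ : Vx A) (some ⟨j, y⟩) =
      some (.inl (.inr ⟨s(i, j), by rw [Sym2.mk_isDiag_iff]; exact h⟩)) := by
  simp only [orb]
  rw [dif_neg h]

theorem orb_symm (u v : Vx A) : orb u v = orb v u := by
  rcases u with _ | ⟨i, x⟩
  · rcases v with _ | ⟨j, y⟩
    · rfl
    · rfl
  · rcases v with _ | ⟨j, y⟩
    · rfl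
    · by_cases h : i = j
      · subst h
        rw [orb_same, orb_same, ← cls_neg, neg_sub]
      · rw [orb_diff h, orb_diff (Ne.symm h)]
        simp [Sym2.eq_swap]

theorem orb_self (u : Vx A) : orb u u = none := by
  rcases u with _ | ⟨i, x⟩
  · rfl
  · rw [orb_same, sub_self, cls_zero]
    rfl

theorem orb_ne_none (u v : Vx A) (huv : u ≠ v) : orb u v ≠ none := by
  rcases u with _ | ⟨i, x⟩
  · rcases v with _ | ⟨j, y⟩
    · exact absurd rfl huv
    · rw [orb_ns]
      simp
  · rcases v with _ | ⟨j, y⟩
    · rw [orb_sn]
      simp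
    · by_cases h : i = j
      · subst h
        rw [orb_same]
        have h1 : x - y ≠ 0 := sub_ne_zero.2 fun h => huv (by rw [h])
        rw [Ne, Option.map_eq_none_iff]
        exact cls_ne_none h1
      · rw [orb_diff h]
        simp

theorem orb_exists (j : Jx A) : ∃ u v : Vx A, orb u v = some j := by
  rcases j with (i | ⟨e, he⟩) | ⟨i, d⟩
  · exact ⟨none, some ⟨i, 0⟩, rfl⟩
  · induction e using Sym2.ind with
    | _ i j =>
    have hij : i ≠ j := by rwa [Sym2.mk_isDiag_iff] at he
    exact ⟨some ⟨i, 0⟩, some ⟨j, 0⟩, orb_diff hij 0 0⟩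
  · obtain ⟨z, hz⟩ := cls_surj d
    refine ⟨some ⟨i, z⟩, some ⟨i, 0⟩, ?_⟩
    rw [orb_same, sub_zero, hz]
    rfl

/-! ### translations -/

/-- translation -/
def tr (t : ∀ i, A i) : Equiv.Perm (Vx A) :=
  Equiv.optionCongr (Equiv.sigmaCongrRight fun i => Equiv.addRight (t i))

theorem tr_none (t : ∀ i, A i) : tr t none = none := rfl

theorem tr_some (t : ∀ i, A i) (i : I) (x : A i) : tr t (some ⟨i, x⟩) = some ⟨i, x + t i⟩ := rfl

theorem tr_add (t t' : ∀ i, A i) : tr (t + t') = tr t * tr t' := by
  ext1 u
  rw [Equiv.Perm.mul_apply]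
  rcases u with _ | ⟨i, x⟩
  · rfl
  · rw [tr_some, tr_some, tr_some, Pi.add_apply, add_comm (t i), add_assoc]

theorem tr_zero : tr (0 : ∀ i, A i) = 1 := by
  ext1 u
  rcases u with _ | ⟨i, x⟩
  · rfl
  · rw [tr_some, Pi.zero_apply, add_zero]
    rfl

theorem tr_nsmul (t : ∀ i, A i) (n : ℕ) : tr (n • t) = tr t ^ n := by
  induction n with
  | zero => rw [zero_smul, tr_zero, pow_zero]
  | succ n ih => rw [succ_nsmul, tr_add, ih, pow_succ]

theorem tr_comm (t t' : ∀ i, A i) : tr t * tr t' = tr t' * tr t := by
  rw [← tr_add, ← tr_add, add_comm]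

theorem orb_tr (t : ∀ i, A i) (u v : Vx A) : orb (tr t u) (tr t v) = orb u v := by
  rcases u with _ | ⟨i, x⟩
  · rcases v with _ | ⟨j, y⟩
    · rfl
    · rfl
  · rcases v with _ | ⟨j, y⟩
    · rfl
    · rw [tr_some, tr_some]
      by_cases h : i = j
      · subst h
        rw [orb_same, orb_same, add_sub_add_right_eq_sub]
      · rw [orb_diff h, orb_diff h]

/-- transitivity on the orbits of the group of all translations -/
theorem orb_trans (j : Jx A) (u v u' v' : Vx A) (h : orb u v = some j) (h' : orb u' v' = some j) :
    ∃ t : ∀ i, A i, (tr t u = u' ∧ tr t v = v') ∨ (tr t u = v' ∧ tr t v = u') := by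
  classical
  have one : ∀ (i : I) (x x' : A i), ∃ t : ∀ i, A i, tr t (some ⟨i, x⟩) = some ⟨i, x'⟩ := by
    intro i x x'
    refine ⟨Function.update 0 i (x' - x), ?_⟩
    rw [tr_some, Function.update_self, add_sub_cancel]
  have two : ∀ (i j : I) (_ : i ≠ j) (x x' : A i) (y y' : A j), ∃ t : ∀ i, A i,
      tr t (some ⟨i, x⟩) = some ⟨i, x'⟩ ∧ tr t (some ⟨j, y⟩) = some ⟨j, y'⟩ := by
    intro i j hij x x' y y'
    refine ⟨Function.update (Function.update 0 j (y' - y)) i (x' - x), ?_, ?_⟩
    · rw [tr_some, Function.update_self, add_sub_cancel]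
    · rw [tr_some, Function.update_of_ne (Ne.symm hij), Function.update_self, add_sub_cancel]
  rcases u with _ | ⟨i, x⟩
  · rcases v with _ | ⟨k, y⟩
    · rw [orb_nn] at h
      cases h
    · rw [orb_ns] at h
      rcases u' with _ | ⟨i', x'⟩
      · rcases v' with _ | ⟨k', y'⟩
        · rw [orb_nn] at h'
          cases h'
        · rw [orb_ns, ← h] at h'
          simp only [Option.some.injEq, Sum.inl.injEq] at h'
          subst h'
          obtain ⟨t, ht⟩ := one k' y y'
          exact ⟨t, Or.inl ⟨rfl, ht⟩⟩
      · rcases v' with _ | ⟨k', y'⟩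
        · rw [orb_sn, ← h] at h'
          simp only [Option.some.injEq, Sum.inl.injEq] at h'
          subst h'
          obtain ⟨t, ht⟩ := one i' y x'
          exact ⟨t, Or.inr ⟨rfl, ht⟩⟩
        · exfalso
          by_cases hik : i' = k'
          · subst hik
            rw [orb_same, ← h] at h'
            simp [Option.map_eq_some_iff] at h'
          · rw [orb_diff hik, ← h] at h'
            simp at h'
  · rcases v with _ | ⟨k, y⟩
    · rw [orb_sn] at h
      rcases u' with _ | ⟨i', x'⟩
      · rcases v' with _ | ⟨k', y'⟩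
        · rw [orb_nn] at h'
          cases h'
        · rw [orb_ns, ← h] at h'
          simp only [Option.some.injEq, Sum.inl.injEq] at h'
          subst h'
          obtain ⟨t, ht⟩ := one k' x y'
          exact ⟨t, Or.inr ⟨ht, rfl⟩⟩
      · rcases v' with _ | ⟨k', y'⟩
        · rw [orb_sn, ← h] at h'
          simp only [Option.some.injEq, Sum.inl.injEq] at h'
          subst h'
          obtain ⟨t, ht⟩ := one i' x x'
          exact ⟨t, Or.inl ⟨ht, rfl⟩⟩
        · exfalso
          by_cases hik : i' = k'
          · subst hik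
            rw [orb_same, ← h] at h'
            simp [Option.map_eq_some_iff] at h'
          · rw [orb_diff hik, ← h] at h'
            simp at h'
    · by_cases hik : i = k
      · subst hik
        rw [orb_same, Option.map_eq_some_iff] at h
        obtain ⟨d, hd, rfl⟩ := h
        rcases u' with _ | ⟨i', x'⟩
        · exfalso
          rcases v' with _ | ⟨k', y'⟩
          · rw [orb_nn] at h'
            cases h'
          · rw [orb_ns] at h'
            simp at h'
        · rcases v' with _ | ⟨k', y'⟩
          · exfalso
            rw [orb_sn] at h'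
            simp at h'
          · by_cases hik' : i' = k'
            · subst hik'
              rw [orb_same, Option.map_eq_some_iff] at h'
              obtain ⟨d', hd', he⟩ := h'
              simp only [Sum.inr.injEq, Sigma.mk.injEq] at he
              obtain ⟨rfl, he⟩ := he
              have he' : d' = d := eq_of_heq he
              subst he'
              rcases cls_inj hd hd' with h1 | h1
              · obtain ⟨t, ht⟩ := one i' x x'
                refine ⟨t, Or.inl ⟨ht, ?_⟩⟩
                rw [tr_some] at ht ⊢
                simp only [Option.some.injEq, Sigma.mk.injEq, heq_eq_eq, true_and] at ht ⊢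
                rw [← ht] at h1
                have : y' = y + t i' := by
                  have h2 : x + t i' - y' = x - y := h1.symm
                  have h3 : y' = x + t i' - (x + t i' - y') := by abel
                  rw [h3, h2]
                  abel
                exact this.symm
              · obtain ⟨t, ht⟩ := one i' x y'
                refine ⟨t, Or.inr ⟨ht, ?_⟩⟩
                rw [tr_some] at ht ⊢
                simp only [Option.some.injEq, Sigma.mk.injEq, heq_eq_eq, true_and] at ht ⊢
                rw [← ht] at h1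
                have : x' = y + t i' := by
                  have h2 : x' - (x + t i') = y - x := by
                    rw [← neg_sub x y, h1, neg_neg]
                  have h3 : x' = x' - (x + t i') + (x + t i') := by abel
                  rw [h3, h2]
                  abel
                exact this.symm
            · exfalso
              rw [orb_diff hik'] at h'
              simp at h'
      · rw [orb_diff hik] at h
        rcases u' with _ | ⟨i', x'⟩
        · exfalso
          rcases v' with _ | ⟨k', y'⟩
          · rw [orb_nn] at h'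
            cases h'
          · rw [orb_ns, ← h] at h'
            simp at h'
        · rcases v' with _ | ⟨k', y'⟩
          · exfalso
            rw [orb_sn, ← h] at h'
            simp at h'
          · by_cases hik' : i' = k'
            · exfalso
              subst hik'
              rw [orb_same, ← h] at h'
              simp [Option.map_eq_some_iff] at h'
            · rw [orb_diff hik', ← h] at h'
              simp only [Option.some.injEq, Sum.inr.injEq, Sum.inl.injEq, Subtype.mk.injEq,
                Sym2.eq_iff] at h'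
              rcases h' with ⟨rfl, rfl⟩ | ⟨rfl, rfl⟩
              · obtain ⟨t, h1, h2⟩ := two i' k' hik x x' y y'
                exact ⟨t, Or.inl ⟨h1, h2⟩⟩
              · obtain ⟨t, h1, h2⟩ := two k' i' hik x y' y x'
                exact ⟨t, Or.inr ⟨h1, h2⟩⟩

variable [Fintype I] [∀ i, Fintype (A i)]

/-- the relation: the translations are generated by elements `a i` of order `p` and one more
element -/
theorem relation {n q : ℕ} {Q : SimpleGraph (Fin n) → Prop} (hQ : GP n q Q)
    (hV : Fintype.card (Vx A) = n) (p : ℕ) [Fact p.Prime] {ι : Type} [Fintype ι]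
    (a : ι → ∀ i, A i) (c : ∀ i, A i) (hap : ∀ i, p • a i = 0)
    (hgen : ∀ t : ∀ i, A i, t ∈ AddSubgroup.closure (insert c (Set.range a)))
    (hq : q < n.choose 2) :
    ∑ χ : Jx A → Bool, sgn χ * bit (PV Q (Vx A) (GR orb orb_symm orb_self χ)) = 0 := by
  have hgen' : ∀ t : ∀ i, A i, tr t ∈ Subgroup.closure
      (insert (tr c) (Set.range fun i => tr (a i))) := by
    intro t
    have h := hgen t
    induction h using AddSubgroup.closure_induction with
    | mem x hx =>
      refine Subgroup.subset_closure ?_
      rcases hx with rfl | ⟨i, rfl⟩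
      · exact Set.mem_insert _ _
      · exact Set.mem_insert_of_mem _ ⟨i, rfl⟩
    | zero =>
      rw [tr_zero]
      exact Subgroup.one_mem _
    | add x y _ _ hx hy =>
      rw [tr_add]
      exact Subgroup.mul_mem _ hx hy
    | neg x _ hx =>
      have h1 : tr (-x) = (tr x)⁻¹ := by
        rw [eq_inv_iff_mul_eq_one, ← tr_add, neg_add_cancel, tr_zero]
      rw [h1]
      exact Subgroup.inv_mem _ hx
  refine rel_orb hQ hV p (fun i => tr (a i)) (tr c) (fun i j => tr_comm _ _) ?_ ?_ orb
    orb_symm orb_self orb_ne_none (fun i => orb_tr _) (orb_tr _) orb_exists ?_ hq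
  · intro i
    rw [← tr_nsmul, hap, tr_zero]
  · intro i
    rw [mul_assoc, tr_comm, ← mul_assoc, inv_mul_cancel, one_mul]
    exact Subgroup.subset_closure (Set.mem_range_self i)
  · intro j u v u' v' h h'
    obtain ⟨t, ht⟩ := orb_trans j u v u' v' h h'
    exact ⟨tr t, hgen' t, ht⟩

end

end Pool.Agent.TH669.KC
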