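import Pool.Agent.TH669.KC.Om

set_option autoImplicit false
set_option linter.unusedSectionVars false

/-!
# The blocks, and the number of winning sets of blocks
-/

namespace Pool.Agent.TH669.KC

open Finset
open Pool.Agent.H119R2.Kp (GP PV)
open Pool.Agent.TH669.KP (sgn bit bit_pos bit_neg bit_congr sum_sgn sgn_sum sum_split)

/-! ### the blocks -/

section blocks

variable (a : ℕ) {P R : Type} (b : R → ℕ)

/-- the blocks: elementary abelian 2-groups and cyclic groups -/
def Bl (P : Type) : P ⊕ R → Type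
  | .inl _ => Fin a → ZMod 2
  | .inr j => ZMod (b j)

instance instBlA : ∀ i : P ⊕ R, AddCommGroup (Bl a b P i)
  | .inl _ => inferInstanceAs (AddCommGroup (Fin a → ZMod 2))
  | .inr j => inferInstanceAs (AddCommGroup (ZMod (b j)))

instance instBlD : ∀ i : P ⊕ R, DecidableEq (Bl a b P i)
  | .inl _ => inferInstanceAs (DecidableEq (Fin a → ZMod 2))
  | .inr j => inferInstanceAs (DecidableEq (ZMod (b j)))

instance instBlF [∀ j, NeZero (b j)] : ∀ i : P ⊕ R, Fintype (Bl a b P i)
  | .inl _ => inferInstanceAs (Fintype (Fin a → ZMod 2))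
  | .inr j => inferInstanceAs (Fintype (ZMod (b j)))

/-- the sizes -/
def bs : P ⊕ R → ℕ := Sum.elim (fun _ => 2 ^ a) b

theorem card_Bl [∀ j, NeZero (b j)] (i : P ⊕ R) : Fintype.card (Bl a b P i) = bs a b i := by
  rcases i with i | j
  · show Fintype.card (Fin a → ZMod 2) = 2 ^ a
    rw [Fintype.card_fun, ZMod.card, Fintype.card_fin]
  · exact ZMod.card (b j)

variable [DecidableEq P] [DecidableEq R]

/-- translations of the first blocks -/
def gA (x : P × (Fin a → ZMod 2)) : ∀ i, Bl a b P i
  | .inl i => if i = x.1 then x.2 else (0 : Fin a → ZMod 2)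
  | .inr j => (0 : ZMod (b j))

/-- the translation of the cyclic blocks -/
def gC : ∀ i, Bl a b P i
  | .inl _ => (0 : Fin a → ZMod 2)
  | .inr j => (1 : ZMod (b j))

theorem two_nsmul_V (v : Fin a → ZMod 2) : 2 • v = 0 := by
  funext l
  rw [Pi.smul_apply, two_nsmul, Pi.zero_apply]
  exact CharTwo.add_self_eq_zero (v l)

theorem two_gA (x : P × (Fin a → ZMod 2)) : 2 • gA (R := R) a b x = 0 := by
  funext i
  rcases i with i | j
  · show 2 • (if i = x.1 then x.2 else (0 : Fin a → ZMod 2)) = (0 : Fin a → ZMod 2)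
    exact two_nsmul_V a _
  · show 2 • (0 : ZMod (b j)) = (0 : ZMod (b j))
    rw [smul_zero]

theorem gen [Fintype P] (hcrt : ∀ y : ∀ j, ZMod (b j), ∃ m : ℕ, ∀ j, (m : ZMod (b j)) = y j)
    (t : ∀ i, Bl a b P i) :
    t ∈ AddSubgroup.closure (insert (gC a b) (Set.range (gA (P := P) a b))) := by
  obtain ⟨m, hm⟩ := hcrt fun j => t (.inr j)
  have h1 : t = m • gC a b + ∑ i0 : P, gA a b (i0, t (.inl i0)) := by
    funext i
    rw [Pi.add_apply, Pi.smul_apply, Finset.sum_apply]
    rcases i with i | j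
    · show (show Fin a → ZMod 2 from t (.inl i)) = m • (0 : Fin a → ZMod 2) +
        ∑ i0 : P, (if i = i0 then (show Fin a → ZMod 2 from t (.inl i0)) else 0)
      rw [smul_zero, zero_add, Finset.sum_ite_eq, if_pos (Finset.mem_univ _)]
    · show (show ZMod (b j) from t (.inr j)) = m • (1 : ZMod (b j)) + ∑ _i0 : P, (0 : ZMod (b j))
      rw [Finset.sum_const_zero, add_zero, nsmul_eq_mul, mul_one]
      exact (hm j).symm
  rw [h1]
  refine AddSubgroup.add_mem _ (AddSubgroup.nsmul_mem _ (AddSubgroup.subset_closure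
    (Set.mem_insert _ _)) _) (AddSubgroup.sum_mem _ fun i0 _ => AddSubgroup.subset_closure
    (Set.mem_insert_of_mem _ (Set.mem_range_self _)))

variable [Fintype P] [Fintype R]

theorem block_rel {n q k s : ℕ} {Q : SimpleGraph (Fin n) → Prop} (hQ : GP n q Q)
    (hlow : ∀ H, HEC k s H → Q H) (hup : ∀ H, Q H → HCR k s H)
    (hn : n = 1 + ∑ i : P ⊕ R, bs a b i) (hq : q < n.choose 2) (hk : 2 ≤ k) (hs2 : 2 ≤ s)
    (hcrt : ∀ y : ∀ j, ZMod (b j), ∃ m : ℕ, ∀ j, (m : ZMod (b j)) = y j)
    (hodd : ∀ j, b j % 2 = 1) (h1 : ∀ i : P ⊕ R, k ≤ bs a b i) (h2 : ∀ i : P ⊕ R, bs a b i < s) :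
    NN (P ⊕ R) (bs a b) s = 0 := by
  classical
  have hz : ∀ j, NeZero (b j) := fun j => ⟨by have := hodd j; omega⟩
  have hcard : Fintype.card (Vx (Bl a b P)) = n := by
    rw [Fintype.card_option, Fintype.card_sigma, hn, add_comm]
    rw [Finset.sum_congr rfl fun i _ => card_Bl a b i]
  have hblk : ∀ i : P ⊕ R, om k (Bl a b P i) ≠ 0 ∧ Nonempty (Cl (Bl a b P i)) := by
    rintro (i | j)
    · refine om_two (B := Fin a → ZMod 2) k ?_ hk ?_
      · intro z
        rw [neg_eq_iff_add_eq_zero, ← two_nsmul]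
        exact two_nsmul_V a z
      · have := card_Bl (P := P) a b (.inl i)
        have h3 := h1 (.inl i)
        rw [← this] at h3
        exact h3
    · refine om_odd (B := ZMod (b j)) k ?_ hk ?_
      · intro z hz
        exact (ZMod.neg_eq_self_iff z).1 hz |>.resolve_right (fun h => by
          have := hodd j
          omega)
      · have := card_Bl (P := P) a b (.inr j)
        have h3 := h1 (.inr j)
        rw [← this] at h3
        exact h3
  have h3 := eval_rel (A := Bl a b P) hQ hlow hup hcard 2 (gA a b) (gC a b) (two_gA a b)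
    (gen a b hcrt) hq hs2 (fun i => by rw [card_Bl]; exact h1 i)
    (fun i => by rw [card_Bl]; exact h2 i) (fun i => (hblk i).2)
  rcases mul_eq_zero.1 h3 with h4 | h4
  · exfalso
    rw [Finset.prod_eq_zero_iff] at h4
    obtain ⟨i, _, hi⟩ := h4
    exact (hblk i).1 hi
  · rw [← h4]
    congr 1
    funext i
    exact (card_Bl a b i).symm

end blocks

/-! ### the signed number of winning sets -/

section nn

variable {m : ℕ}

/-- with functions instead of sets -/
theorem NN_eq {I : Type} [Fintype I] [DecidableEq I] (f : I → ℕ) (s : ℕ) :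
    NN I f s = (-1) ^ Fintype.card I *
      ∑ χ : I → Bool, sgn χ * bit (s ≤ 1 + ∑ i, if χ i = true then f i else 0) := by
  classical
  let E : (I → Bool) ≃ Finset I :=
    { toFun := fun χ => univ.filter fun x => χ x = true
      invFun := fun W j => decide (j ∈ W)
      left_inv := by
        intro χ
        funext j
        simp
      right_inv := by
        intro W
        ext x
        simp }
  unfold NN
  rw [Finset.mul_sum]
  symm
  refine Fintype.sum_equiv E _ _ fun χ => ?_
  have h1 : sgn χ = (-1 : ℤ) ^ (E χ).card := by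
    unfold sgn
    rw [Finset.prod_ite, Finset.prod_const, Finset.prod_const_one, mul_one]
    rfl
  have h2 : (-1 : ℤ) ^ ((E χ)ᶜ).card = (-1) ^ Fintype.card I * (-1) ^ (E χ).card := by
    have h1 := Finset.card_compl_add_card (E χ)
    have h2 : (-1 : ℤ) ^ (E χ).card * (-1) ^ (E χ).card = 1 := by
      rw [← mul_pow]; simp
    rw [← h1, pow_add, mul_assoc, h2, mul_one]
  have h3 : ∑ i ∈ E χ, f i = ∑ i, if χ i = true then f i else 0 := by
    rw [← Finset.sum_filter]
    rfl
  rw [h1, h2, h3]
  ring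

theorem sum_fin (q : ℕ) (κ : Fin m → Bool) :
    (∑ i : Fin m, if κ i = true then q else 0) = q * cnt κ := by
  rw [← Finset.sum_filter, Finset.sum_const, smul_eq_mul, mul_comm]
  rfl

/-- one cyclic block -/
theorem NN_one (a : ℕ) (b : Unit → ℕ) (s : ℕ) :
    NN (Fin m ⊕ Unit) (bs a b) s = (-1) ^ (m + 1) *
      ((∑ κ : Fin m → Bool, sgn κ * bit (s ≤ 1 + 2 ^ a * cnt κ)) -
        ∑ κ : Fin m → Bool, sgn κ * bit (s ≤ 1 + (2 ^ a * cnt κ + b ()))) := by
  rw [NN_eq]
  have h0 : Fintype.card (Fin m ⊕ Unit) = m + 1 := by simp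
  rw [h0]
  congr 1
  rw [sum_split, ← Finset.sum_sub_distrib]
  refine Finset.sum_congr rfl fun κ _ => ?_
  have h1 : ∀ η : Unit → Bool, sgn (Sum.elim κ η) * bit (s ≤ 1 + ∑ i : Fin m ⊕ Unit,
      if Sum.elim κ η i = true then bs a b i else 0) =
      sgn κ * (sgn η * bit (s ≤ 1 + (2 ^ a * cnt κ + if η () = true then b () else 0))) := by
    intro η
    have h5 := sgn_sum (Sum.elim κ η)
    simp only [Sum.elim_inl, Sum.elim_inr] at h5
    have e1 : (∑ i : Fin m, if Sum.elim κ η (Sum.inl i) = true then bs a b (Sum.inl i) else 0) =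
        2 ^ a * cnt κ := sum_fin (2 ^ a) κ
    have e2 : (∑ j : Unit, if Sum.elim κ η (Sum.inr j) = true then bs a b (Sum.inr j : Fin m ⊕ Unit)
        else 0) = if η () = true then b () else 0 := by
      rw [Finset.univ_unique, Finset.sum_singleton]
      rfl
    rw [h5, mul_assoc, Fintype.sum_sum_type, e1, e2]
  rw [Finset.sum_congr rfl fun η _ => h1 η, ← Finset.mul_sum]
  have h2 : ∑ η : Unit → Bool, sgn η * bit (s ≤ 1 + (2 ^ a * cnt κ + if η () = true then b () else 0))
      = ∑ c : Bool, (if c = true then (-1 : ℤ) else 1) *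
        bit (s ≤ 1 + (2 ^ a * cnt κ + if c = true then b () else 0)) := by
    refine Fintype.sum_equiv (Equiv.funUnique Unit Bool) _ _ fun η => ?_
    have h3 : sgn η = if η () = true then (-1 : ℤ) else 1 := by
      unfold sgn
      simp
    rw [h3]
    rfl
  rw [h2, Fintype.sum_bool]
  simp only [if_true, Bool.false_eq_true, if_false]
  rw [add_zero]
  ring

/-- functions on the two-element type -/
def eBB : (Bool → Bool) ≃ Bool × Bool where
  toFun η := (η true, η false)
  invFun c x := if x = true then c.1 else c.2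
  left_inv η := by
    funext x
    cases x <;> rfl
  right_inv c := rfl

/-- two cyclic blocks -/
theorem NN_two (a : ℕ) (b : Bool → ℕ) (s : ℕ) :
    NN (Fin m ⊕ Bool) (bs a b) s = (-1) ^ (m + 2) *
      ((∑ κ : Fin m → Bool, sgn κ * bit (s ≤ 1 + 2 ^ a * cnt κ)) -
        (∑ κ : Fin m → Bool, sgn κ * bit (s ≤ 1 + (2 ^ a * cnt κ + b true))) -
        (∑ κ : Fin m → Bool, sgn κ * bit (s ≤ 1 + (2 ^ a * cnt κ + b false))) +
        ∑ κ : Fin m → Bool, sgn κ * bit (s ≤ 1 + (2 ^ a * cnt κ + (b true + b false)))) := by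
  rw [NN_eq]
  have h0 : Fintype.card (Fin m ⊕ Bool) = m + 2 := by simp
  rw [h0]
  congr 1
  rw [sum_split, ← Finset.sum_sub_distrib, ← Finset.sum_sub_distrib, ← Finset.sum_add_distrib]
  refine Finset.sum_congr rfl fun κ _ => ?_
  have h1 : ∀ η : Bool → Bool, sgn (Sum.elim κ η) * bit (s ≤ 1 + ∑ i : Fin m ⊕ Bool,
      if Sum.elim κ η i = true then bs a b i else 0) =
      sgn κ * (sgn η * bit (s ≤ 1 + (2 ^ a * cnt κ + ((if η true = true then b true else 0) +
        if η false = true then b false else 0)))) := by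
    intro η
    have h5 := sgn_sum (Sum.elim κ η)
    simp only [Sum.elim_inl, Sum.elim_inr] at h5
    have e1 : (∑ i : Fin m, if Sum.elim κ η (Sum.inl i) = true then bs a b (Sum.inl i) else 0) =
        2 ^ a * cnt κ := sum_fin (2 ^ a) κ
    have e2 : (∑ j : Bool, if Sum.elim κ η (Sum.inr j) = true then bs a b (Sum.inr j : Fin m ⊕ Bool)
        else 0) = (if η true = true then b true else 0) + if η false = true then b false else 0 := by
      rw [Fintype.sum_bool]
      rfl
    rw [h5, mul_assoc, Fintype.sum_sum_type, e1, e2]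
  rw [Finset.sum_congr rfl fun η _ => h1 η, ← Finset.mul_sum]
  have h2 : ∑ η : Bool → Bool, sgn η * bit (s ≤ 1 + (2 ^ a * cnt κ +
      ((if η true = true then b true else 0) + if η false = true then b false else 0))) =
      ∑ c : Bool × Bool, ((if c.1 = true then (-1 : ℤ) else 1) * (if c.2 = true then (-1 : ℤ) else 1)) *
        bit (s ≤ 1 + (2 ^ a * cnt κ +
        ((if c.1 = true then b true else 0) + if c.2 = true then b false else 0))) := by
    refine Fintype.sum_equiv eBB _ _ fun η => ?_
    have h3 : sgn η = (if η true = true then (-1 : ℤ) else 1) *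
        (if η false = true then (-1 : ℤ) else 1) := by
      unfold sgn
      rw [Fintype.prod_bool]
    rw [h3]
    rfl
  rw [h2, Fintype.sum_prod_type, Fintype.sum_bool, Fintype.sum_bool, Fintype.sum_bool]
  simp only [if_true, Bool.false_eq_true, if_false, add_zero, zero_add]
  ring

end nn

end Pool.Agent.TH669.KC
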