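import Pool.Agent.TH669.KC.Eval

set_option autoImplicit false
set_option linter.unusedSectionVars false

/-!
# The values of the blocks
-/

namespace Pool.Agent.TH669.KC

open Finset
open Pool.Agent.TH669.KP (sgn bit bit_pos bit_neg bit_congr bit_not sum_sgn)

section count

variable {X : Type} [Fintype X] [DecidableEq X]

/-- the number of chosen elements -/
def cnt (χ : X → Bool) : ℕ := (Finset.univ.filter fun d => χ d = true).card

theorem sum_to_finset (f : ℕ → ℤ) : ∑ χ : X → Bool, sgn χ * f (cnt χ) =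
    ∑ S ∈ (Finset.univ : Finset X).powerset, (-1) ^ S.card * f S.card := by
  rw [Finset.powerset_univ]
  let E : (X → Bool) ≃ Finset X :=
    { toFun := fun χ => univ.filter fun x => χ x = true
      invFun := fun I j => decide (j ∈ I)
      left_inv := by
        intro χ
        funext j
        simp
      right_inv := by
        intro I
        ext x
        simp }
  refine Fintype.sum_equiv E _ _ fun χ => ?_
  have h1 : sgn χ = (-1 : ℤ) ^ (E χ).card := by
    unfold sgn
    rw [Finset.prod_ite, Finset.prod_const, Finset.prod_const_one, mul_one]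
    rfl
  rw [h1]
  rfl

theorem e_eval (M r : ℕ) (hX : Fintype.card X = M + 1) :
    ∑ χ : X → Bool, sgn χ * bit (r + 1 ≤ cnt χ) = (-1) ^ (r + 1) * (M.choose r : ℤ) := by
  have hne : Nonempty X := Fintype.card_pos_iff.1 (by omega)
  have h1 : ∀ χ : X → Bool, sgn χ * bit (r + 1 ≤ cnt χ) =
      sgn χ - sgn χ * (fun j : ℕ => if j < r + 1 then (1 : ℤ) else 0) (cnt χ) := by
    intro χ
    simp only
    by_cases h : r + 1 ≤ cnt χ
    · rw [bit_pos h, if_neg (by omega)]
      ring
    · rw [bit_neg h, if_pos (by omega)]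
      ring
  rw [Finset.sum_congr rfl fun χ _ => h1 χ, Finset.sum_sub_distrib, sum_sgn,
    sum_to_finset (fun j : ℕ => if j < r + 1 then (1 : ℤ) else 0)]
  rw [Finset.sum_powerset_apply_card (fun j : ℕ => (-1 : ℤ) ^ j * if j < r + 1 then (1 : ℤ) else 0),
    Finset.card_univ, hX]
  have h2 : ∑ m ∈ range (M + 1 + 1), (M + 1).choose m • ((-1 : ℤ) ^ m * if m < r + 1 then 1 else 0) =
      ∑ m ∈ range (M + 1 + 1 + (r + 1)),
        (M + 1).choose m • ((-1 : ℤ) ^ m * if m < r + 1 then 1 else 0) := by
    refine Finset.sum_subset (Finset.range_mono (by omega)) fun m _ hm => ?_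
    rw [Finset.mem_range] at hm
    rw [Nat.choose_eq_zero_of_lt (by omega), zero_smul]
  have h3 : ∑ m ∈ range (r + 1), (M + 1).choose m • ((-1 : ℤ) ^ m * if m < r + 1 then 1 else 0) =
      ∑ m ∈ range (M + 1 + 1 + (r + 1)),
        (M + 1).choose m • ((-1 : ℤ) ^ m * if m < r + 1 then 1 else 0) := by
    refine Finset.sum_subset (Finset.range_mono (by omega)) fun m _ hm => ?_
    rw [Finset.mem_range] at hm
    rw [if_neg hm, mul_zero, smul_zero]
  rw [h2, ← h3]
  have h4 := Int.alternating_sum_range_choose_eq_choose (n := M) (m := r)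
  have h5 : ∑ m ∈ range (r + 1), (M + 1).choose m • ((-1 : ℤ) ^ m * if m < r + 1 then 1 else 0) =
      ∑ k ∈ range (r + 1), ((-1 : ℤ) ^ k * (M + 1).choose k) := by
    refine Finset.sum_congr rfl fun m hm => ?_
    rw [if_pos (Finset.mem_range.1 hm), nsmul_eq_mul]
    ring
  rw [h5, h4]
  ring

end count

section om

variable {B : Type} [AddCommGroup B] [DecidableEq B] [Fintype B]

theorem ID_eq (δ : ℕ) (h : ∀ d : Cl B, (Finset.univ.filter fun z : B => cls z = some d).card = δ)
    (χ : Cl B → Bool) : ID χ = δ * cnt χ := by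
  classical
  have h1 : (Finset.univ.filter fun z : B => IA χ z) =
      (Finset.univ.filter fun d : Cl B => χ d = true).biUnion
        fun d => Finset.univ.filter fun z : B => cls z = some d := by
    ext z
    simp only [Finset.mem_filter, Finset.mem_univ, true_and, Finset.mem_biUnion]
    unfold IA
    constructor
    · rintro ⟨d, h1, h2⟩
      exact ⟨d, h2, h1⟩
    · rintro ⟨d, h1, h2⟩
      exact ⟨d, h2, h1⟩
  have h2 : ID χ = (Finset.univ.filter fun z : B => IA χ z).card := by
    unfold ID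
    congr
  rw [h2, h1, Finset.card_biUnion]
  · rw [Finset.sum_congr rfl fun d _ => h d, Finset.sum_const, smul_eq_mul, mul_comm]
    rfl
  · intro d _ d' _ hd
    rw [Function.onFun, Finset.disjoint_left]
    intro z hz hz'
    rw [Finset.mem_filter] at hz hz'
    apply hd
    have := hz.2.symm.trans hz'.2
    simpa using this

theorem card_Cl (δ : ℕ) (h : ∀ d : Cl B, (Finset.univ.filter fun z : B => cls z = some d).card = δ) :
    δ * Fintype.card (Cl B) + 1 = Fintype.card B := by
  classical
  have h1 := ID_eq δ h (fun _ => true)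
  have h2 : cnt (fun _ : Cl B => true) = Fintype.card (Cl B) := by
    unfold cnt
    simp
  have h3 : ID (fun _ : Cl B => true) = ((Finset.univ : Finset B).erase 0).card := by
    unfold ID
    congr 1
    ext z
    rw [Finset.mem_filter, Finset.mem_erase]
    constructor
    · rintro ⟨_, d, hd, _⟩
      refine ⟨?_, Finset.mem_univ _⟩
      rintro rfl
      rw [cls_zero] at hd
      cases hd
    · rintro ⟨hz, _⟩
      exact ⟨Finset.mem_univ _, _, cls_of_ne hz, rfl⟩
  rw [h2, h3, Finset.card_erase_of_mem (Finset.mem_univ _), Finset.card_univ] at h1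
  have := Fintype.card_pos_iff.2 (⟨(0 : B)⟩ : Nonempty B)
  omega

theorem om_eval (k δ r M : ℕ)
    (h : ∀ d : Cl B, (Finset.univ.filter fun z : B => cls z = some d).card = δ)
    (hM : Fintype.card (Cl B) = M + 1) (hr : ∀ j, k ≤ δ * j + 1 ↔ r + 1 ≤ j) :
    om k B = (-1) ^ (r + 1) * (M.choose r : ℤ) := by
  rw [← e_eval M r hM]
  unfold om
  refine Finset.sum_congr rfl fun χ _ => ?_
  rw [ID_eq δ h χ]
  exact congrArg _ (bit_congr (hr _))

/-- groups of exponent two -/
theorem om_two (k : ℕ) (hB : ∀ z : B, -z = z) (hk : 2 ≤ k) (hkB : k ≤ Fintype.card B) :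
    om k B ≠ 0 ∧ Nonempty (Cl B) := by
  have hδ : ∀ d : Cl B, (Finset.univ.filter fun z : B => cls z = some d).card = 1 := by
    intro d
    obtain ⟨z0, hz0⟩ := cls_surj d
    rw [Finset.card_eq_one]
    refine ⟨z0, ?_⟩
    ext z
    rw [Finset.mem_filter, Finset.mem_singleton]
    constructor
    · rintro ⟨_, h⟩
      rcases cls_inj h hz0 with h1 | h1
      · exact h1
      · rw [h1, hB]
    · rintro rfl
      exact ⟨Finset.mem_univ _, hz0⟩
  have h1 := card_Cl 1 hδ
  obtain ⟨M, hM⟩ : ∃ M, Fintype.card (Cl B) = M + 1 := ⟨Fintype.card (Cl B) - 1, by omega⟩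
  refine ⟨?_, Fintype.card_pos_iff.1 (by omega)⟩
  rw [om_eval k 1 (k - 2) M hδ hM (fun j => by omega)]
  refine mul_ne_zero (pow_ne_zero _ (by norm_num)) ?_
  have : M.choose (k - 2) ≠ 0 := Nat.choose_ne_zero (by omega)
  exact_mod_cast this

/-- groups of odd order -/
theorem om_odd (k : ℕ) (hB : ∀ z : B, -z = z → z = 0) (hk : 2 ≤ k) (hkB : k ≤ Fintype.card B) :
    om k B ≠ 0 ∧ Nonempty (Cl B) := by
  have hδ : ∀ d : Cl B, (Finset.univ.filter fun z : B => cls z = some d).card = 2 := by
    intro d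
    obtain ⟨z0, hz0⟩ := cls_surj d
    have hne : z0 ≠ 0 := by
      rintro rfl
      rw [cls_zero] at hz0
      cases hz0
    rw [Finset.card_eq_two]
    refine ⟨z0, -z0, fun h => hne (hB z0 h.symm), ?_⟩
    ext z
    rw [Finset.mem_filter, Finset.mem_insert, Finset.mem_singleton]
    constructor
    · rintro ⟨_, h⟩
      exact cls_inj h hz0
    · rintro (rfl | rfl)
      · exact ⟨Finset.mem_univ _, hz0⟩
      · exact ⟨Finset.mem_univ _, by rw [cls_neg]; exact hz0⟩
  have h1 := card_Cl 2 hδ
  obtain ⟨M, hM⟩ : ∃ M, Fintype.card (Cl B) = M + 1 := ⟨Fintype.card (Cl B) - 1, by omega⟩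
  refine ⟨?_, Fintype.card_pos_iff.1 (by omega)⟩
  rw [om_eval k 2 (k / 2 - 1) M hδ hM (fun j => by omega)]
  refine mul_ne_zero (pow_ne_zero _ (by norm_num)) ?_
  have : M.choose (k / 2 - 1) ≠ 0 := Nat.choose_ne_zero (by omega)
  exact_mod_cast this

end om

end Pool.Agent.TH669.KC
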